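import Mathlib
import Pool.Agent.Lib.MP_5bf547_lin.Geo

/-! Vertical bars between marked faces. -/

namespace Pool.Agent.Lib.MP_5bf547_cnt

open Classical Finset Pool.Agent.Lib.MP_5bf547_co Pool.Agent.Lib.MP_5bf547_lin

lemma conn_in {S : Set Pt} {a q : Pt} (h : Conn S a q) : Conn (S ∩ {r | Conn S a r}) a q := by
  induction h with
  | refl => exact Conn.refl _ _
  | @tail b c k h2 ih =>
    exact ih.trans (Conn.single (fun r hr => ⟨h2 hr, Conn.trans k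
      (Conn.single ((seg_sub (left_mem_segment _ _ _) hr).trans h2))⟩))

lemma first_hit {Y M : Set Pt} (hM : IsClosed M) {b v : Pt} (h : Conn Y b v) (hv : v ∈ M) :
    ∃ u ∈ M, Conn Y b u ∧ Conn ((Y \ M) ∪ {u}) b u := by
  have key : (Conn (Y \ M) b v ∧ v ∉ M) ∨ ∃ u ∈ M, Conn Y b u ∧ Conn ((Y \ M) ∪ {u}) b u := by
    clear hv
    induction h with
    | refl =>
      by_cases k : b ∈ M
      · exact Or.inr ⟨b, k, Conn.refl _ _, Conn.refl _ _⟩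
      · exact Or.inl ⟨Conn.refl _ _, k⟩
    | @tail c d k h2 ih =>
      rcases ih with ih | ih
      swap
      · exact Or.inr ih
      let f : ℝ → Pt := fun t => (c.1 + t * (d.1 - c.1), c.2 + t * (d.2 - c.2))
      have hc : IsCompact (Set.Icc 0 1 ∩ f ⁻¹' M) :=
        isCompact_Icc.inter_right (hM.preimage (by fun_prop))
      rcases (Set.Icc 0 1 ∩ f ⁻¹' M).eq_empty_or_nonempty with e | e
      · have a : ∀ q ∈ segment ℝ c d, q ∉ M := by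
          intro q hq hm
          obtain ⟨t, t0, t1, e1, e2⟩ := mem_seg_iff.1 hq
          have : q = f t := Prod.ext e1 e2
          exact Set.eq_empty_iff_forall_notMem.1 e t ⟨⟨t0, t1⟩, by rwa [Set.mem_preimage, ← this]⟩
        exact Or.inl ⟨ih.1.trans (Conn.single (fun q hq => ⟨h2 hq, a q hq⟩)),
          a _ (right_mem_segment _ _ _)⟩
      obtain ⟨t, ⟨⟨t0, t1⟩, t2⟩, hmin⟩ := hc.exists_isLeast e
      have m : f t ∈ segment ℝ c d := mem_seg_iff.2 ⟨t, t0, t1, rfl, rfl⟩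
      refine Or.inr ⟨f t, t2, Conn.trans k (Conn.single
        ((seg_sub (left_mem_segment _ _ _) m).trans h2)),
        (ih.1.mono Set.subset_union_left).trans (Conn.single (fun q hq => ?_))⟩
      by_cases hm : q ∈ M
      swap
      · exact Or.inl ⟨h2 (seg_sub (left_mem_segment _ _ _) m hq), hm⟩
      obtain ⟨s, s0, s1, e1, e2⟩ := mem_seg_iff.1 hq
      have e3 : q = f (s * t) := Prod.ext (by rw [e1]; simp only [f]; ring)
        (by rw [e2]; simp only [f]; ring)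
      have e4 : t ≤ s * t := hmin ⟨⟨by positivity, by nlinarith⟩, by rwa [Set.mem_preimage, ← e3]⟩
      right
      rw [e3, show s * t = t by nlinarith]
      rfl
  exact key.resolve_left (fun k => k.2 hv)

lemma seg_ln {a b q : Pt} (hab : a.1 < b.1) :
    q ∈ segment ℝ a b ↔ a.1 ≤ q.1 ∧ q.1 ≤ b.1 ∧ q.2 = ln a b q.1 :=
  ⟨fun h => ⟨(x_of_mem hab.le h).1, (x_of_mem hab.le h).2, (ori_zero hab q).1 (ori_of_mem h)⟩,
    fun h => mem_seg_of_on hab h.1 h.2.1 ((ori_zero hab q).2 h.2.2)⟩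

lemma ln_root {a b a' b' : Pt} {x x' : ℝ} (h : ln a' b' x ≤ ln a b x) (h' : ln a b x' ≤ ln a' b' x') :
    ∃ s ∈ Set.uIcc x x', ln a b s = ln a' b' s := by
  have hc : Continuous (fun s => ln a b s - ln a' b' s) := by unfold ln; fun_prop
  obtain ⟨s, s1, s2⟩ := intermediate_value_uIcc (a := x) (b := x') hc.continuousOn
    (show (0 : ℝ) ∈ _ from Set.mem_uIcc.2 (Or.inr ⟨by linarith, by linarith⟩))
  exact ⟨s, s1, sub_eq_zero.1 s2⟩

variable {n : ℕ} {p : Fin n → Pt} {B : Set (Fin n × Fin n)}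

lemma half_free {α β H : ℝ} (hH : ∀ i, α * (p i).1 + β * (p i).2 ≤ H) {u v : Pt}
    (hu : H < α * u.1 + β * u.2) (hv : H < α * v.1 + β * v.2) : segment ℝ u v ⊆ Free p B := by
  intro q hq
  obtain ⟨t, t0, t1, e1, e2⟩ := mem_seg_iff.1 hq
  have a : H < α * q.1 + β * q.2 := by
    have := cc_lt t0 t1 hu hv
    rw [e1, e2]; linarith
  refine ⟨fun i k => by rw [k] at a; linarith [hH i], fun e _ k => ?_⟩
  obtain ⟨s, s0, s1, f1, f2⟩ := mem_seg_iff.1 k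
  rw [f1, f2] at a
  nlinarith [mul_nonneg s0 (sub_nonneg.2 (hH e.2)), mul_nonneg (sub_nonneg.2 s1) (sub_nonneg.2 (hH e.1))]

variable (p B) in
lemma exists_outer : ∃ ω ∈ Free p B, ∃ H : ℝ, ∀ q : Pt, H < q.2 ∨ q.2 < -H → q ∈ Face p B ω := by
  obtain ⟨H, hH⟩ := (Set.finite_range (fun i => |(p i).1| + |(p i).2|)).bddAbove
  have a : ∀ i, |(p i).1| ≤ H ∧ |(p i).2| ≤ H := fun i => by
    have := hH ⟨i, rfl⟩
    constructor <;> linarith [abs_nonneg (p i).1, abs_nonneg (p i).2]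
  have h1 : ∀ i, 0 * (p i).1 + 1 * (p i).2 ≤ H := fun i => by linarith [(abs_le.1 (a i).2).2]
  have h2 : ∀ i, (-1) * (p i).1 + 0 * (p i).2 ≤ H := fun i => by linarith [(abs_le.1 (a i).1).1]
  have h3 : ∀ i, 0 * (p i).1 + (-1) * (p i).2 ≤ H := fun i => by linarith [(abs_le.1 (a i).2).1]
  refine ⟨(-H - 1, H + 1), half_free h1 (v := (0, H + 1)) (by simp) (by simp)
    (left_mem_segment _ _ _), H, fun q hq => ?_⟩
  rcases hq with k | k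
  · exact Conn.single (half_free h1 (by simp) (by linarith))
  · exact Conn.trans (b := (-H - 1, -H - 1)) (Conn.single (half_free h2 (by simp) (by simp)))
      (Conn.single (half_free h3 (by simp) (by linarith)))

variable (p) in
/-- critical abscissae -/
def Crit : Set ℝ := {x | (∃ i, x = (p i).1) ∨ ∃ g g' : Fin n × Fin n,
  ln (p g.1) (p g.2) x = ln (p g'.1) (p g'.2) x ∧ ∃ s, ln (p g.1) (p g.2) s ≠ ln (p g'.1) (p g'.2) s}

lemma crit_finite : (Crit p).Finite := by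
  refine ((Set.finite_range (fun i => (p i).1)).union (Set.finite_iUnion (fun g : Fin n × Fin n =>
    Set.finite_iUnion (fun g' : Fin n × Fin n => Set.Subsingleton.finite
      (s := {x | ln (p g.1) (p g.2) x = ln (p g'.1) (p g'.2) x ∧
        ∃ s, ln (p g.1) (p g.2) s ≠ ln (p g'.1) (p g'.2) s}) ?_)))).subset ?_
  · rintro x ⟨a, s, k⟩ y ⟨b, _⟩
    rcases lt_trichotomy x y with c | c | c
    · exact absurd (cmp_eq c a b s) k
    · exact c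
    · exact absurd (cmp_eq c b a s) k
  · rintro x (⟨i, k⟩ | ⟨g, g', k⟩)
    · exact Or.inl ⟨i, k.symm⟩
    · exact Or.inr (Set.mem_iUnion.2 ⟨g, Set.mem_iUnion.2 ⟨g', k⟩⟩)

variable (p B) in
/-- a union of faces -/
structure Mk (Z : Set Pt) : Prop where
  free : Z ⊆ Free p B
  seg : ∀ q ∈ Z, ∀ r, segment ℝ q r ⊆ Free p B → r ∈ Z

variable {Z : Set Pt}

lemma span {x x' s : ℝ} (h : ∀ t ∈ Set.uIcc x x', t ∉ Crit p) (hs : s ∈ Set.uIcc x x')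
    {s' : ℝ} (hs' : s' ∈ Set.uIcc x x') {i j : Fin n} (h1 : (p i).1 ≤ s) (h2 : s ≤ (p j).1) :
    (p i).1 ≤ s' ∧ s' ≤ (p j).1 := by
  constructor <;> by_contra c
  · exact h _ (Set.uIcc_subset_uIcc hs' hs (Set.mem_uIcc.2 (Or.inl ⟨(not_le.1 c).le, h1⟩)))
      (Or.inl ⟨i, rfl⟩)
  · exact h _ (Set.uIcc_subset_uIcc hs hs' (Set.mem_uIcc.2 (Or.inl ⟨h2, (not_le.1 c).le⟩)))
      (Or.inl ⟨j, rfl⟩)

lemma column (hB : Ordered p B) (hZ : Mk p B Z) {x x' y : ℝ} (h : ∀ t ∈ Set.uIcc x x', t ∉ Crit p)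
    (hy : (x', y) ∈ Z) {g g' : Fin n × Fin n} (hg : g ∈ B) (hg' : g' ∈ B)
    (s1 : (p g.1).1 ≤ x' ∧ x' ≤ (p g.2).1) (s2 : (p g'.1).1 ≤ x' ∧ x' ≤ (p g'.2).1)
    (k1 : ln (p g.1) (p g.2) x' ≤ y) (k2 : y ≤ ln (p g'.1) (p g'.2) x') :
    ∃ y', (x, y') ∈ Z ∧ ln (p g.1) (p g.2) x ≤ y' ∧ y' ≤ ln (p g'.1) (p g'.2) x := by
  have ne : ∀ k ∈ B, (p k.1).1 ≤ x' ∧ x' ≤ (p k.2).1 → y ≠ ln (p k.1) (p k.2) x' :=
    fun k hk s e => (hZ.free hy).2 k hk ((seg_ln (hB k hk)).2 ⟨s.1, s.2, e⟩)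
  obtain ⟨a, ha, ma⟩ := exists_max_image (univ.filter (fun k => k ∈ B ∧
    ((p k.1).1 ≤ x' ∧ x' ≤ (p k.2).1) ∧ ln (p k.1) (p k.2) x' ≤ y)) (fun k => ln (p k.1) (p k.2) x)
    ⟨g, mem_filter.2 ⟨mem_univ _, hg, s1, k1⟩⟩
  obtain ⟨b, hb, mb⟩ := exists_min_image (univ.filter (fun k => k ∈ B ∧
    ((p k.1).1 ≤ x' ∧ x' ≤ (p k.2).1) ∧ y ≤ ln (p k.1) (p k.2) x')) (fun k => ln (p k.1) (p k.2) x)
    ⟨g', mem_filter.2 ⟨mem_univ _, hg', s2, k2⟩⟩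
  obtain ⟨_, a1, a2, a3⟩ := mem_filter.1 ha
  obtain ⟨_, b1, b2, b3⟩ := mem_filter.1 hb
  have lt : ln (p a.1) (p a.2) x < ln (p b.1) (p b.2) x := by
    by_contra c
    obtain ⟨s, t1, t2⟩ := ln_root (not_lt.1 c) (a3.trans b3)
    exact h s t1 (Or.inr ⟨a, b, t2, x', ((lt_of_le_of_ne a3 (ne a a1 a2).symm).trans_le b3).ne⟩)
  have m1 := ma g (mem_filter.2 ⟨mem_univ _, hg, s1, k1⟩)
  have m2 := mb g' (mem_filter.2 ⟨mem_univ _, hg', s2, k2⟩)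
  refine ⟨(ln (p a.1) (p a.2) x + ln (p b.1) (p b.2) x) / 2, hZ.seg _ hy _ (fun q hq => ?_),
    by linarith, by linarith⟩
  obtain ⟨t, t0, t1, e1, e2⟩ := mem_seg_iff.1 hq
  have qm : q.1 ∈ Set.uIcc x x' := by
    rw [Set.uIcc_comm, ← segment_eq_uIcc, segment_eq_image']
    exact ⟨t, ⟨t0, t1⟩, e1.symm⟩
  refine ⟨fun i k => h _ qm (Or.inl ⟨i, by rw [k]⟩), fun k hk hm => ?_⟩
  have hab := hB k hk
  have sp := span h qm Set.right_mem_uIcc (x_of_mem hab.le hm).1 (x_of_mem hab.le hm).2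
  have o := ori_of_mem hm
  rw [ori_affine e1 e2, ori_ln hab, ori_ln hab] at o
  have pos : 0 < (p k.2).1 - (p k.1).1 := sub_pos.2 hab
  simp only at o
  rcases lt_or_gt_of_ne (ne k hk sp) with c | c
  · have := mb k (mem_filter.2 ⟨mem_univ _, hk, sp, c.le⟩)
    linarith [cc_gt t0 t1 (mul_neg_of_pos_of_neg pos (sub_neg.2 c)) (mul_neg_of_pos_of_neg pos
      (show (ln (p a.1) (p a.2) x + ln (p b.1) (p b.2) x) / 2 - ln (p k.1) (p k.2) x < 0 by linarith))]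
  · have := ma k (mem_filter.2 ⟨mem_univ _, hk, sp, c.le⟩)
    linarith [cc_lt t0 t1 (mul_pos pos (sub_pos.2 c)) (mul_pos pos
      (show 0 < (ln (p a.1) (p a.2) x + ln (p b.1) (p b.2) x) / 2 - ln (p k.1) (p k.2) x by linarith))]

/-- the vertical segment with data `(x, a, b)` -/
def bar (β : ℝ × ℝ × ℝ) : Set Pt := {q | q.1 = β.1 ∧ β.2.1 ≤ q.2 ∧ q.2 ≤ β.2.2}

lemma bar_closed (β : ℝ × ℝ × ℝ) : IsClosed (bar β) :=
  (isClosed_eq continuous_fst continuous_const).inter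
    ((isClosed_le continuous_const continuous_snd).inter (isClosed_le continuous_snd continuous_const))

lemma bar_seg {β : ℝ × ℝ × ℝ} {u v : Pt} (hu : u ∈ bar β) (hv : v ∈ bar β) :
    segment ℝ u v ⊆ bar β := by
  intro q hq
  obtain ⟨t, t0, t1, e1, e2⟩ := mem_seg_iff.1 hq
  obtain ⟨a1, a2, a3⟩ := hu
  obtain ⟨b1, b2, b3⟩ := hv
  refine ⟨by rw [e1, a1, b1]; ring, ?_, ?_⟩ <;> rw [e2]
  · nlinarith [mul_nonneg t0 (sub_nonneg.2 b2), mul_nonneg (sub_nonneg.2 t1) (sub_nonneg.2 a2)]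
  · nlinarith [mul_nonneg t0 (sub_nonneg.2 b3), mul_nonneg (sub_nonneg.2 t1) (sub_nonneg.2 a3)]

/-- marked ends, and the unmarked part is an interval -/
structure Tight (Z : Set Pt) (β : ℝ × ℝ × ℝ) : Prop where
  lo : (β.1, β.2.1) ∈ Z
  hi : (β.1, β.2.2) ∈ Z
  le : β.2.1 ≤ β.2.2
  cvx : ∀ y1 y y2, β.2.1 ≤ y1 → y1 ≤ y → y ≤ y2 → y2 ≤ β.2.2 → (β.1, y1) ∉ Z → (β.1, y2) ∉ Z →
    (β.1, y) ∉ Z

lemma Tight.seg {β : ℝ × ℝ × ℝ} (T : Tight Z β) {u v : Pt} (hu : u ∈ bar β) (hv : v ∈ bar β)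
    (hu' : u ∉ Z) (hv' : v ∉ Z) {q : Pt} (hq : q ∈ segment ℝ u v) : q ∉ Z := by
  have key : ∀ u v : Pt, u ∈ bar β → v ∈ bar β → u ∉ Z → v ∉ Z → u.2 ≤ v.2 →
      q ∈ segment ℝ u v → q ∉ Z := by
    intro u v hu hv hu' hv' k hq
    obtain ⟨a, b, c⟩ := vert_mem (hu.1.trans hv.1.symm) k hq
    have := T.cvx u.2 q.2 v.2 hu.2.1 b c hv.2.2 (by rwa [← hu.1]) (by rwa [← hv.1])
    rwa [← hu.1, ← a] at this
  rcases le_total u.2 v.2 with k | k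
  · exact key u v hu hv hu' hv' k hq
  · exact key v u hv hu hv' hu' k (by rwa [segment_symm])

lemma Tight.same {β β' : ℝ × ℝ × ℝ} (T : Tight Z β) (T' : Tight Z β') {v r : Pt} (h1 : v ∈ bar β)
    (h2 : v ∈ bar β') (h3 : v ∉ Z) (h4 : r ∈ bar β') (h5 : r ∉ Z) : r ∈ bar β := by
  have e : v.1 = r.1 := h2.1.trans h4.1.symm
  refine ⟨e ▸ h1.1, ?_, ?_⟩ <;> by_contra c
  · exact T'.seg h4 h2 h5 h3 (vert_mem' e.symm (h1.1.symm.trans e) (not_le.1 c).le h1.2.1) T.lo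
  · exact T'.seg h2 h4 h3 h5 (vert_mem' (q := (β.1, β.2.2)) e h1.1.symm h1.2.2 (not_le.1 c).le) T.hi

lemma exists_tight (hB : Ordered p B) (hZ : Mk p B Z) {x : ℝ} (hx : ∀ i, x ≠ (p i).1)
    (Q : ℝ → Prop) {a a' : ℝ} (h1 : a ≤ a') (h2 : (x, a) ∈ Z) (h3 : (x, a') ∈ Z) (h4 : ¬ Q a)
    (h5 : Q a') : ∃ u u', Tight Z (x, u, u') ∧ ¬ Q u ∧ Q u' := by
  let c : ℝ → ℝ → Finset (Fin n × Fin n) := fun a a' => univ.filter (fun g => g ∈ B ∧
    ∃ t, a ≤ t ∧ t ≤ a' ∧ ((x, t) : Pt) ∈ segment ℝ (p g.1) (p g.2))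
  have sub : ∀ a a' b b', b ≤ a → a' ≤ b' → c a a' ⊆ c b b' := by
    intro a a' b b' k k' g hg
    obtain ⟨_, g1, t, t1, t2, t3⟩ := mem_filter.1 hg
    exact mem_filter.2 ⟨mem_univ _, g1, t, k.trans t1, t2.trans k', t3⟩
  have ex : ∀ s s', s ≤ s' → ¬ ((x, s) ∈ Z ↔ (x, s') ∈ Z) → (c s s').Nonempty := by
    intro s s' k hn
    by_contra e
    have f : segment ℝ ((x, s) : Pt) (x, s') ⊆ Free p B := by
      intro q hq
      obtain ⟨q1, q2, q3⟩ := vert_mem (s := (x, s)) (s' := (x, s')) rfl k hq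
      refine ⟨fun i e => hx i (by rw [← e, q1]), fun g hg hm => e ⟨g, mem_filter.2
        ⟨mem_univ _, hg, q.2, q2, q3, ?_⟩⟩⟩
      rwa [show ((x, q.2) : Pt) = q from Prod.ext q1.symm rfl]
    exact hn ⟨fun k => hZ.seg _ k _ f, fun k => hZ.seg _ k _ (by rwa [segment_symm])⟩
  have dj : ∀ s y s' g, (x, y) ∈ Z → g ∈ c s y → g ∉ c y s' := by
    intro s y s' g hy k k'
    obtain ⟨_, g1, t, _, t2, t3⟩ := mem_filter.1 k
    obtain ⟨_, _, t', t1', _, t3'⟩ := mem_filter.1 k'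
    have e : t = t' := ((seg_ln (hB g g1)).1 t3).2.2.trans ((seg_ln (hB g g1)).1 t3').2.2.symm
    obtain rfl : t = y := le_antisymm t2 (e ▸ t1')
    exact (hZ.free hy).2 g g1 t3
  induction hk : (c a a').card using Nat.strong_induction_on generalizing a a' with
  | _ m ih =>
    by_cases T : Tight Z (x, a, a')
    · exact ⟨a, a', T, h4, h5⟩
    have : ∃ y1 y y2, a ≤ y1 ∧ y1 ≤ y ∧ y ≤ y2 ∧ y2 ≤ a' ∧ (x, y1) ∉ Z ∧ (x, y2) ∉ Z ∧ (x, y) ∈ Z := by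
      by_contra e
      exact T ⟨h2, h3, h1, fun y1 y y2 b1 b2 b3 b4 b5 b6 b7 => e ⟨y1, y, y2, b1, b2, b3, b4, b5, b6, b7⟩⟩
    obtain ⟨y1, y, y2, b1, b2, b3, b4, b5, b6, b7⟩ := this
    by_cases q : Q y
    · obtain ⟨g, hg⟩ := ex y y2 b3 (fun k => b6 (k.1 b7))
      refine ih _ ?_ (b1.trans b2) h2 b7 h4 q rfl
      exact hk ▸ card_lt_card ⟨sub _ _ _ _ le_rfl (b3.trans b4), fun k =>
        dj _ _ _ g b7 (k (sub _ _ _ _ (b1.trans b2) b4 hg)) hg⟩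
    · obtain ⟨g, hg⟩ := ex y1 y b2 (fun k => b5 (k.2 b7))
      refine ih _ ?_ (b3.trans b4) b7 h3 q h5 rfl
      exact hk ▸ card_lt_card ⟨sub _ _ _ _ (b1.trans b2) le_rfl, fun k =>
        dj _ _ _ g b7 hg (k (sub _ _ _ _ b1 (b3.trans b4) hg))⟩

end Pool.Agent.Lib.MP_5bf547_cnt
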