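import Mathlib
import Pool.Agent.Lib.MP_5bf547_cnt.Bar

/-! Cutting the unmarked part of the plane. -/

namespace Pool.Agent.Lib.MP_5bf547_cnt

open Classical Finset Pool.Agent.Lib.MP_5bf547_co Pool.Agent.Lib.MP_5bf547_lin

variable {n h : ℕ} {p : Fin n → Pt} {B : Set (Fin n × Fin n)} {ω : Pt} {z : Fin h → Pt}

variable (p B ω z) in
/-- the marked faces -/
def Zm : Set Pt := Face p B ω ∪ ⋃ m, Face p B (z m)

lemma zm_mk (hω : ω ∈ Free p B) (hz : ∀ m, z m ∈ Free p B) : Mk p B (Zm p B ω z) := by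
  refine ⟨?_, ?_⟩
  · rintro q (k | k)
    · exact face_free hω k
    · obtain ⟨m, k⟩ := Set.mem_iUnion.1 k
      exact face_free (hz m) k
  · rintro q (k | k) r hr
    · exact Or.inl (face_seg k hr (right_mem_segment _ _ _))
    · obtain ⟨m, k⟩ := Set.mem_iUnion.1 k
      exact Or.inr (Set.mem_iUnion.2 ⟨m, face_seg k hr (right_mem_segment _ _ _)⟩)

def cuts (K : Finset (ℝ × ℝ × ℝ)) : Set Pt := ⋃ β ∈ K, bar β

lemma exists_cuts (hB : Ordered p B) (hω : ω ∈ Free p B) (hz : ∀ m, z m ∈ Free p B) {H : ℝ}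
    (hH : ∀ q : Pt, H < q.2 → q ∈ Face p B ω) {W : Set ℝ} (hW : W.Finite)
    (hW' : ∀ i, (p i).1 ∈ W) : ∃ K : Finset (ℝ × ℝ × ℝ), K.card ≤ h ∧
      (∀ β ∈ K, Tight (Zm p B ω z) β ∧ β.1 ∉ W) ∧
      ∀ q ∈ Zm p B ω z, Conn (Zm p B ω z ∪ cuts K) ω q := by
  set Z := Zm p B ω z with hZ
  have c0 : ∀ K, ∀ q ∈ Face p B ω, Conn (Z ∪ cuts K) ω q := fun K q hq =>
    (conn_in hq).mono (fun r hr => Or.inl (Or.inl hr.2))
  have c1 : ∀ K m, ∀ q ∈ Face p B (z m), Conn (Z ∪ cuts K) (z m) q := fun K m q hq =>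
    (conn_in hq).mono (fun r hr => Or.inl (Or.inr (Set.mem_iUnion.2 ⟨m, hr.2⟩)))
  have key : ∀ t, ∃ K : Finset (ℝ × ℝ × ℝ), K.card ≤ t ∧ (∀ β ∈ K, Tight Z β ∧ β.1 ∉ W) ∧
      ((∀ m, Conn (Z ∪ cuts K) ω (z m)) ∨
        t ≤ (univ.filter (fun m => Conn (Z ∪ cuts K) ω (z m))).card) := by
    intro t
    induction t with
    | zero => exact ⟨∅, le_rfl, by simp, Or.inr (Nat.zero_le _)⟩
    | succ t ih =>
      obtain ⟨K, k1, k2, k3⟩ := ih
      by_cases a : ∀ m, Conn (Z ∪ cuts K) ω (z m)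
      · exact ⟨K, by omega, k2, Or.inl a⟩
      obtain ⟨m, hm⟩ := not_forall.1 a
      obtain ⟨ε, hε, hb⟩ := Metric.isOpen_iff.1 (isOpen_face (hz m)) (z m) (Conn.refl _ _)
      obtain ⟨x, hx1, hx2⟩ := (Set.Ioo_infinite
        (show (z m).1 < (z m).1 + ε by linarith)).exists_notMem_finite hW
      have b : ((x, (z m).2) : Pt) ∈ Face p B (z m) := by
        apply hb
        rw [Metric.mem_ball, Prod.dist_eq, dist_self, Real.dist_eq]
        exact max_lt (abs_lt.2 ⟨by linarith [hx1.1], by linarith [hx1.2]⟩) hε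
      have b' : ((x, max (z m).2 (H + 1)) : Pt) ∈ Face p B ω :=
        hH _ (lt_max_of_lt_right (by linarith))
      obtain ⟨u, u', T, q1, q2⟩ := exists_tight hB (zm_mk hω hz) (x := x)
        (fun i e => hx2 (e ▸ hW' i)) (fun y => Conn (Z ∪ cuts K) ω (x, y)) (le_max_left _ _)
        (Or.inr (Set.mem_iUnion.2 ⟨m, b⟩)) (Or.inl b')
        (fun k => hm (k.trans (c1 K m _ b).symm)) (c0 K _ b')
      obtain ⟨m', hm'⟩ := Set.mem_iUnion.1 (T.lo.resolve_left (fun k => q1 (c0 K _ k)))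
      have s : Z ∪ cuts K ⊆ Z ∪ cuts (insert (x, u, u') K) := Set.union_subset_union_right _
        (Set.biUnion_subset_biUnion_left (fun β hβ => mem_insert_of_mem hβ))
      refine ⟨insert (x, u, u') K, (card_insert_le _ _).trans (by omega), fun β hβ => ?_,
        Or.inr ((k3.resolve_left a).trans_lt (card_lt_card ⟨fun i hi => mem_filter.2
          ⟨mem_univ _, (mem_filter.1 hi).2.mono s⟩, fun k => q1 ?_⟩))⟩
      · rcases mem_insert.1 hβ with e | e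
        · exact e ▸ ⟨T, hx2⟩
        · exact k2 β e
      · refine (mem_filter.1 (k (mem_filter.2 ⟨mem_univ m', ?_⟩))).2.trans (c1 K m' _ hm')
        refine ((q2.mono s).trans (Conn.single (fun r hr => Or.inr ?_))).trans (c1 _ m' _ hm').symm
        exact Set.mem_biUnion (mem_insert_self _ _)
          (bar_seg (β := (x, u, u')) (u := (x, u')) (v := (x, u)) ⟨rfl, T.le, le_rfl⟩
            ⟨rfl, le_rfl, T.le⟩ hr)
  obtain ⟨K, k1, k2, k3⟩ := key h
  have a : ∀ m, Conn (Z ∪ cuts K) ω (z m) := by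
    refine k3.elim id (fun k m => ?_)
    have := eq_univ_of_card (univ.filter (fun m => Conn (Z ∪ cuts K) ω (z m)))
      (le_antisymm (card_le_univ _) (by simpa using k))
    exact (mem_filter.1 (this ▸ mem_univ m : m ∈ univ.filter _)).2
  refine ⟨K, k1, k2, ?_⟩
  rintro q (k | k)
  · exact c0 K q k
  · obtain ⟨m, k⟩ := Set.mem_iUnion.1 k
    exact (a m).trans (c1 K m q k)

lemma exists_touch (hB : Ordered p B) (hω : ω ∈ Free p B) (hz : ∀ m, z m ∈ Free p B) {H : ℝ}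
    (hH : ∀ q : Pt, q.2 < -H → q ∈ Face p B ω) {e : Fin n × Fin n} {m : Fin h}
    (he : e ∈ Top p B (z m)) : ∃ (w : Pt) (γ : ℝ × ℝ × ℝ), Tight (Zm p B ω z) γ ∧ w ∈ bar γ ∧
      w ∈ segment ℝ (p e.1) (p e.2) ∧ (∀ i, w.1 ≠ (p i).1) ∧
      ∀ q ∈ bar γ, q ∉ Zm p B ω z → q.2 ≤ w.2 := by
  obtain ⟨heB, w, y, h1, h2, h3, h4, h5, h6, h7, h8⟩ := he
  have hZ := zm_mk hω hz
  have hy : y ∈ Zm p B ω z := Or.inr (Set.mem_iUnion.2 ⟨m, h8⟩)
  have hw := mem_seg_of_on (hB e heB) h1.le h2.le h3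
  have up : ∀ t, w.2 < t → t ≤ y.2 → ((w.1, t) : Pt) ∈ Zm p B ω z := by
    intro t t1 t2
    refine hZ.seg y hy _ (fun r hr => ?_)
    rw [segment_symm] at hr
    obtain ⟨r1, r2, r3⟩ := vert_mem (s := (w.1, t)) h5.symm t2 hr
    exact h7 r r1 (t1.trans_le r2) r3
  obtain ⟨u, u', T, q1, q2⟩ := exists_tight hB hZ h4 (fun t => w.2 < t)
    (a := min w.2 (-H - 1)) ((min_le_left _ _).trans h6.le)
    (Or.inl (hH _ (min_lt_of_right_lt (by linarith)))) (up _ h6 le_rfl)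
    (not_lt.2 (min_le_left _ _)) h6
  refine ⟨w, _, T, ⟨rfl, not_lt.1 q1, q2.le⟩, hw, h4, fun q hq k => ?_⟩
  by_contra c
  exact T.cvx w.2 (min q.2 y.2) q.2 (not_lt.1 q1) (le_min (not_le.1 c).le h6.le) (min_le_left _ _)
    hq.2.2 (fun a => (hZ.free a).2 e heB hw) (by rwa [← hq.1])
    (up _ (lt_min (not_le.1 c) h6) (min_le_right _ _))

lemma sep_par {S : Set Pt} {γ : ℝ × ℝ × ℝ} (hc : Conn S (γ.1, γ.2.1) (γ.1, γ.2.2)) {s s' w : Pt}
    (h0 : (γ.1, γ.2.1) ∈ S) (hw : w ∈ bar γ) (h1 : s.1 < w.1) (h2 : w.1 < s'.1)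
    (h3 : w ∈ segment ℝ s s') (h4 : segment ℝ s s' ⊆ Sᶜ) : ¬ Conn (Sᶜ \ bar γ) s s' := by
  obtain ⟨f, -, hf, -⟩ := exists_par hc
  have le := hw.2.1.trans hw.2.2
  have key : ∀ q, Conn (Sᶜ \ bar γ) s q → f s + f q = 0 := by
    intro q hq
    induction hq with
    | refl => exact two0 _
    | @tail b c _ k ih =>
      have a := hf b c (Set.disjoint_left.2 (fun r hr hm => (k hm).1 hr))
      have d := sq (s := (γ.1, γ.2.1)) (s' := (γ.1, γ.2.2)) (z := b) (z' := c)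
        (Set.disjoint_left.2 (fun r hr hm => (k hm).2
          (bar_seg (u := (γ.1, γ.2.1)) (v := (γ.1, γ.2.2)) ⟨rfl, le_rfl, le⟩ ⟨rfl, le, le_rfl⟩ hr)))
      rw [ind_false (Ab_vert (s := (γ.1, γ.2.1)) (s' := (γ.1, γ.2.2)) rfl),
        ind_false (Ab_vert (s := (γ.1, γ.2.1)) (s' := (γ.1, γ.2.2)) rfl)] at d
      linear_combination ih + a + d - two0 (f b)
  intro k
  have a := hf s s' (Set.disjoint_left.2 (fun r hr hm => h4 hm hr))
  have e := ((seg_ln (h1.trans h2)).1 h3).2.2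
  have n1 : w.2 ≠ γ.2.2 := fun c => h4 h3 (by
    rw [show w = (γ.1, γ.2.2) from Prod.ext hw.1 c]; exact hc.mem h0)
  rw [hw.1] at h1 h2 e
  rw [key s' k, ind_congr (be_line h1 h2), ind_congr (be_line h1 h2), ← e,
    ind_false (not_lt.2 hw.2.1), ind_true (lt_of_le_of_ne hw.2.2 n1)] at a
  exact absurd a (by decide)

lemma crs_of_meet (hg : Gen p) {e e' : Fin n × Fin n} (he : (p e.1).1 < (p e.2).1)
    (he' : (p e'.1).1 < (p e'.2).1) (hne : e ≠ e') {q : Pt} (h1 : q ∈ segment ℝ (p e.1) (p e.2))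
    (h2 : q ∈ segment ℝ (p e'.1) (p e'.2)) (a1 : (p e.1).1 < q.1) (a2 : q.1 < (p e.2).1)
    (b1 : (p e'.1).1 < q.1) (b2 : q.1 < (p e'.2).1) : Crs p e e' := by
  have key : ∀ e e' : Fin n × Fin n, (p e.1).1 < (p e.2).1 → (p e'.1).1 < (p e'.2).1 → e ≠ e' →
      q ∈ segment ℝ (p e.1) (p e.2) → q ∈ segment ℝ (p e'.1) (p e'.2) → (p e'.1).1 < q.1 →
      q.1 < (p e'.2).1 →
      ori (p e.1) (p e.2) (p e'.1) * ori (p e.1) (p e.2) (p e'.2) < 0 := by
    intro e e' he he' hne h1 h2 b1 b2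
    have c := ((seg_ln he).1 h1).2.2.symm.trans ((seg_ln he').1 h2).2.2
    have ns : ¬ ∀ x, ln (p e.1) (p e.2) x = ln (p e'.1) (p e'.2) x := by
      intro k
      have n0 : e.1 ≠ e.2 := fun a => by rw [a] at he; exact lt_irrefl _ he
      have o1 : e'.1 = e.1 ∨ e'.1 = e.2 := by
        by_contra a
        exact hg.col _ _ _ n0 (fun b => a (Or.inl b.symm)) (fun b => a (Or.inr b.symm))
          ((ori_zero he _).2 (by rw [k, ln_left]))
      have o2 : e'.2 = e.1 ∨ e'.2 = e.2 := by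
        by_contra a
        exact hg.col _ _ _ n0 (fun b => a (Or.inl b.symm)) (fun b => a (Or.inr b.symm))
          ((ori_zero he _).2 (by rw [k, ln_right he']))
      rcases o1 with o1 | o1 <;> rcases o2 with o2 | o2
      · rw [o1, o2] at he'; exact lt_irrefl _ he'
      · exact hne (Prod.ext o1.symm o2.symm)
      · rw [o1, o2] at he'; exact lt_asymm he he'
      · rw [o1, o2] at he'; exact lt_irrefl _ he'
    exact opp_of_meet h1 h2
      (fun k => ns (cmp_eq b1 (by rw [← (ori_zero he _).1 k, ln_left]) c))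
      (fun k => ns (cmp_eq b2 c (by rw [← (ori_zero he _).1 k, ln_right he'])))
  exact ⟨key e e' he he' hne h1 h2 b1 b2, key e' e he' he hne.symm h2 h1 a1 a2⟩

end Pool.Agent.Lib.MP_5bf547_cnt
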