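import Mathlib

/-! Laminar families are families of intervals; non-crossing pairs are few. -/

namespace Pool.Agent.Lib.MP_5bf547_cnt

open Classical Finset

theorem lam_key {P ε : Type} [Fintype P] (E : Set ε) (S : ε → Set P)
    (hL : ∀ e ∈ E, ∀ e' ∈ E, S e ⊆ S e' ∨ S e' ⊆ S e ∨ Disjoint (S e) (S e')) :
    ∃ key : P → Lex (ℕ ×ₗ ℕ → Prop), ∀ e ∈ E, ∀ x ∈ S e, ∀ y ∈ S e, ∀ z,
      key x ≤ key z → key z ≤ key y → z ∈ S e := by
  let rk : Set P → ℕ ×ₗ ℕ := fun U =>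
    toLex (Fintype.card P - U.ncard, (Fintype.equivFin (Set P) U : ℕ))
  have rinj : Function.Injective rk := fun U U' k =>
    (Fintype.equivFin (Set P)).injective (Fin.ext (congrArg (fun r => (ofLex r).2) k))
  let f : P → ℕ ×ₗ ℕ → Prop := fun x r => ∃ e ∈ E, rk (S e) = r ∧ x ∈ S e
  refine ⟨fun x => toLex (f x), fun e he x hx y hy z h1 h2 => ?_⟩
  have agree : ∀ x ∈ S e, ∀ y ∈ S e, ∀ r, r ≤ rk (S e) → f x r → f y r := by
    rintro x hx y hy r hr ⟨e', he', rfl, hx'⟩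
    refine ⟨e', he', rfl, ?_⟩
    rcases hL e he e' he' with k | k | k
    · exact k hy
    · have a : Fintype.card P - (S e').ncard ≤ Fintype.card P - (S e).ncard := by
        rcases Prod.Lex.toLex_le_toLex.1 hr with c | c
        · exact c.le
        · exact c.1.le
      have b : (S e).ncard ≤ Fintype.card P := by
        rw [← Nat.card_eq_fintype_card]; exact Set.ncard_le_card _
      rw [Set.eq_of_subset_of_ncard_le k (by omega) (Set.toFinite _)]
      exact hy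
    · exact absurd hx' (Set.disjoint_left.1 k hx)
  have key : ∀ r, r ≤ rk (S e) → f x r = f z r := by
    intro r
    induction r using WellFoundedLT.induction with
    | ind r ih =>
      intro hr
      have a := Pi.apply_le_of_toLex h1 (i := r) (fun j hj => ih j hj (hj.le.trans hr))
      have b := Pi.apply_le_of_toLex h2 (i := r) (fun j hj => by
        rw [← ih j hj (hj.le.trans hr)]
        exact propext ⟨agree x hx y hy j (hj.le.trans hr), agree y hy x hx j (hj.le.trans hr)⟩)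
      exact propext ⟨a, fun k => agree y hy x hx r hr (b k)⟩
  obtain ⟨e', _, k1, k2⟩ : f z (rk (S e)) := key _ le_rfl ▸ ⟨e, he, rfl, hx⟩
  rwa [← rinj k1]

theorem lam_chain {P ε : Type} [Fintype P] (E : Set ε) (S : ε → Set P)
    (hne : ∀ e ∈ E, (S e).Nonempty)
    (hL : ∀ e ∈ E, ∀ e' ∈ E, S e ⊆ S e' ∨ S e' ⊆ S e ∨ Disjoint (S e) (S e')) :
    ∃ (C : Set (Set P)) (lo hi : ε → Set P), (∀ U ∈ C, ∀ U' ∈ C, U ⊆ U' ∨ U' ⊆ U) ∧
      (∀ e, lo e ∈ C ∧ hi e ∈ C) ∧ (∀ e ∈ E, ∀ z, z ∈ S e ↔ z ∈ hi e ∧ z ∉ lo e) ∧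
      (∀ e ∈ E, lo e ⊆ hi e) ∧ ∀ e ∈ E, ∀ e' ∈ E, (lo e' ⊆ lo e ∧ hi e ⊆ hi e') ∨
        (lo e ⊆ lo e' ∧ hi e' ⊆ hi e) ∨ hi e ⊆ lo e' ∨ hi e' ⊆ lo e := by
  obtain ⟨key, hk⟩ := lam_key E S hL
  refine ⟨{U | ∀ a b, key a ≤ key b → b ∈ U → a ∈ U}, fun e => {z | ∀ x ∈ S e, key z < key x},
    fun e => {z | ∃ x ∈ S e, key z ≤ key x}, fun U hU U' hU' => ?_, fun e => ⟨?_, ?_⟩,
    fun e he z => ⟨fun k => ⟨⟨z, k, le_rfl⟩, fun c => lt_irrefl _ (c z k)⟩, ?_⟩, fun e he z hz => ?_,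
    fun e he e' he' => ?_⟩
  · by_contra c
    rw [not_or, Set.not_subset, Set.not_subset] at c
    obtain ⟨⟨a, a1, a2⟩, b, b1, b2⟩ := c
    rcases le_total (key a) (key b) with k | k
    · exact a2 (hU' a b k b1)
    · exact b2 (hU b a k a1)
  · exact fun a b k hb x hx => k.trans_lt (hb x hx)
  · rintro a b k ⟨x, hx, k'⟩
    exact ⟨x, hx, k.trans k'⟩
  · rintro ⟨⟨y, hy, k⟩, c⟩
    simp only [Set.mem_ofPred_eq, not_forall] at c
    obtain ⟨x, hx, k'⟩ := c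
    exact hk e he x hx y hy z (not_lt.1 k') k
  · obtain ⟨x, hx⟩ := hne e he
    exact ⟨x, hx, (hz x hx).le⟩
  · have sep : ∀ e ∈ E, ∀ e' ∈ E, Disjoint (S e) (S e') → ∀ x0 ∈ S e, ∀ y0 ∈ S e',
        key x0 ≤ key y0 → ∀ z, (∃ x ∈ S e, key z ≤ key x) → ∀ y ∈ S e', key z < key y := by
      rintro e he e' he' hd x0 hx0 y0 hy0 k z ⟨x, hx, k1⟩ y hy
      refine k1.trans_lt (not_le.1 (fun c => ?_))
      rcases le_total (key x) (key y0) with d | d
      · exact Set.disjoint_left.1 hd hx (hk e' he' y hy y0 hy0 x c d)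
      · exact Set.disjoint_left.1 hd (hk e he x0 hx0 x hx y0 k d) hy0
    rcases hL e he e' he' with k | k | k
    · exact Or.inl ⟨fun z hz x hx => hz x (k hx), fun z ⟨x, hx, c⟩ => ⟨x, k hx, c⟩⟩
    · exact Or.inr (Or.inl ⟨fun z hz x hx => hz x (k hx), fun z ⟨x, hx, c⟩ => ⟨x, k hx, c⟩⟩)
    · obtain ⟨x, hx⟩ := hne e he
      obtain ⟨y, hy⟩ := hne e' he'
      rcases le_total (key x) (key y) with c | c
      · exact Or.inr (Or.inr (Or.inl (sep e he e' he' k x hx y hy c)))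
      · exact Or.inr (Or.inr (Or.inr (sep e' he' e he k.symm y hy x hx c)))

lemma pairs_card (K : Finset (ℕ × ℕ)) (N : ℕ) (h1 : ∀ z ∈ K, z.1 ≤ z.2 ∧ z.2 < N)
    (h2 : ∀ z ∈ K, ∀ z' ∈ K, (z'.1 ≤ z.1 ∧ z.2 ≤ z'.2) ∨ (z.1 ≤ z'.1 ∧ z'.2 ≤ z.2) ∨
      z.2 ≤ z'.1 ∨ z'.2 ≤ z.1) : K.card ≤ 3 * N := by
  let c : ℕ × ℕ → Fin 3 × ℕ := fun z =>
    if z.1 = z.2 then (0, z.1) else if ∃ z' ∈ K, z'.1 = z.1 ∧ z.2 < z'.2 then (1, z.2) else (2, z.1)
  refine (card_le_card_of_injOn (t := univ ×ˢ range N) c (fun z hz => ?_)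
    (fun z hz z' hz' e => ?_)).trans (by simp)
  · have := h1 z hz
    simp only [c, coe_product, coe_univ, coe_range, Set.mem_prod, Set.mem_univ, true_and, Set.mem_Iio]
    split_ifs <;> dsimp only <;> omega
  · have a := h1 z hz
    have a' := h1 z' hz'
    simp only [c] at e
    split_ifs at e with k1 k2 k3 k4 k5 k6 k7 k8 <;> simp only [Prod.mk.injEq] at e
    all_goals try exact absurd e.1 (by decide)
    · exact Prod.ext e.2 (by omega)
    · obtain ⟨u, hu, u1, u2⟩ := k4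
      obtain ⟨u', hu', u1', u2'⟩ := k6
      have b := h2 z hz u' hu'
      have b' := h2 z' hz' u hu
      exact Prod.ext (by omega) e.2
    · push Not at k4 k8
      have b := k4 z' hz' e.2.symm
      have b' := k8 z hz e.2
      exact Prod.ext e.2 (by omega)

lemma small_sub {α : Type} (A : Finset α) (m : ℕ) :
    (A.powerset.filter (fun T => T.card ≤ m)).card ≤ (A.card + 1) ^ m := by
  have h : A.powerset.filter (fun T => T.card ≤ m) ⊆
      (range (m + 1)).biUnion (fun i => powersetCard i A) := by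
    intro T hT
    obtain ⟨a, b⟩ := mem_filter.1 hT
    exact mem_biUnion.2 ⟨T.card, mem_range.2 (by omega), mem_powersetCard.2 ⟨mem_powerset.1 a, rfl⟩⟩
  refine (card_le_card h).trans (card_biUnion_le.trans ?_)
  rw [add_pow]
  refine sum_le_sum (fun i hi => ?_)
  rw [card_powersetCard, one_pow, mul_one]
  exact (Nat.choose_le_pow _ _).trans
    (Nat.le_mul_of_pos_right _ (Nat.choose_pos (by have := mem_range.1 hi; omega)))

end Pool.Agent.Lib.MP_5bf547_cnt
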