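import Mathlib
import Pool.Agent.Lib.MP_5bf547_cnt.Lam

/-! The nested encoding of an edge set by crossing systems, and its count. -/

namespace Pool.Agent.Lib.MP_5bf547_cnt

open Classical Finset

abbrev Ed (n : ℕ) := Fin n × Fin n
abbrev St (n : ℕ) := Finset (Finset (Fin n)) × Set (Ed n)

variable {n : ℕ}

def Step (CS : Set (Ed n) → Prop) (N b : ℕ) (y : St n) : Set (St n) :=
  {z | z.1.card ≤ N ∧ (∀ V ∈ z.1, V.card ≤ b ∧ ∃ V' ∈ y.1, V ⊆ V') ∧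
    ∃ W : Finset (Set (Ed n)), W.card ≤ 2 * N ∧
      (∀ M ∈ W, CS M ∧ ∃ V' ∈ y.1, ∀ e ∈ M, e.1 ∈ V' ∧ e.2 ∈ V') ∧ z.2 = y.2 ∪ ⋃ M ∈ W, M}

def Fam (CS : Set (Ed n) → Prop) (N b : ℕ → ℕ) : ℕ → Set (St n)
  | 0 => {({univ}, ∅)}
  | t + 1 => ⋃ y ∈ Fam CS N b t, Step CS (N (t + 1)) (b (t + 1)) y

def Uq (CS : Set (Ed n) → Prop) : Prop :=
  ∀ M M', CS M → CS M' → Prod.fst '' M = Prod.fst '' M' → Prod.snd '' M = Prod.snd '' M' → M = M'

lemma step_card {CS : Set (Ed n) → Prop} (hCS : Uq CS) {N b N0 b0 c : ℕ} {y : St n}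
    (h1 : y.1.card ≤ N0) (h2 : ∀ V ∈ y.1, V.card ≤ b0) (h3 : N0 * 2 ^ b0 + 1 ≤ 2 ^ c) :
    (Step CS N b y).ncard ≤ 2 ^ (5 * N * c) := by
  set A := y.1.biUnion powerset with hA
  have a1 : A.card + 1 ≤ 2 ^ c := by
    refine le_trans (Nat.add_le_add_right ?_ 1) h3
    refine (card_biUnion_le_card_mul _ _ (2 ^ b0) (fun V hV => ?_)).trans (Nat.mul_le_mul_right _ h1)
    rw [card_powerset]
    exact Nat.pow_le_pow_right two_pos (h2 V hV)
  let sel : Finset (Fin n) × Finset (Fin n) → Set (Ed n) := fun T =>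
    if h : ∃ M, CS M ∧ Prod.fst '' M = ↑T.1 ∧ Prod.snd '' M = ↑T.2 then h.choose else ∅
  let ends : Set (Ed n) → Finset (Fin n) × Finset (Fin n) := fun M =>
    ((Prod.fst '' M).toFinset, (Prod.snd '' M).toFinset)
  have hsel : ∀ M, CS M → sel (ends M) = M := by
    intro M hM
    have h : ∃ M', CS M' ∧ Prod.fst '' M' = ↑(ends M).1 ∧ Prod.snd '' M' = ↑(ends M).2 :=
      ⟨M, hM, (Set.coe_toFinset _).symm, (Set.coe_toFinset _).symm⟩
    simp only [sel, dif_pos h]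
    obtain ⟨k1, k2, k3⟩ := h.choose_spec
    exact hCS _ _ k1 hM (k2.trans (Set.coe_toFinset _)) (k3.trans (Set.coe_toFinset _))
  let Φ : Finset (Finset (Fin n)) × Finset (Finset (Fin n) × Finset (Fin n)) → St n :=
    fun w => (w.1, y.2 ∪ ⋃ T ∈ w.2, sel T)
  have hsub : Step CS N b y ⊆ Φ '' ↑((A.powerset.filter (fun T => T.card ≤ N)) ×ˢ
      ((A ×ˢ A).powerset.filter (fun T => T.card ≤ 2 * N))) := by
    rintro ⟨z1, z2⟩ ⟨k1, k2, W, k3, k4, k5⟩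
    refine ⟨(z1, W.image ends), mem_coe.2 (mem_product.2 ⟨mem_filter.2 ⟨mem_powerset.2 ?_, k1⟩,
      mem_filter.2 ⟨mem_powerset.2 ?_, card_image_le.trans k3⟩⟩), Prod.ext rfl ?_⟩
    · intro V hV
      obtain ⟨_, V', a, b⟩ := k2 V hV
      exact mem_biUnion.2 ⟨V', a, mem_powerset.2 b⟩
    · intro T hT
      obtain ⟨M, hM, rfl⟩ := mem_image.1 hT
      obtain ⟨_, V', a, b⟩ := k4 M hM
      refine mem_product.2 ⟨mem_biUnion.2 ⟨V', a, mem_powerset.2 (fun i hi => ?_)⟩,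
        mem_biUnion.2 ⟨V', a, mem_powerset.2 (fun i hi => ?_)⟩⟩
      · obtain ⟨e, he, rfl⟩ := Set.mem_toFinset.1 hi
        exact (b e he).1
      · obtain ⟨e, he, rfl⟩ := Set.mem_toFinset.1 hi
        exact (b e he).2
    · simp only [Φ] at k5 ⊢
      rw [k5, set_biUnion_finset_image]
      congr 1
      exact Set.iUnion₂_congr (fun M hM => hsel M (k4 M hM).1)
  refine (Set.ncard_le_ncard hsub ((finite_toSet _).image _)).trans
    ((Set.ncard_image_le (finite_toSet _)).trans ?_)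
  rw [Set.ncard_coe_finset, card_product]
  refine (Nat.mul_le_mul (small_sub _ _) (small_sub _ _)).trans ?_
  rw [card_product, show 5 * N * c = c * N + (c * 2) * (2 * N) by ring, pow_add, pow_mul 2 c N,
    pow_mul 2 (c * 2), pow_mul 2 c 2]
  refine Nat.mul_le_mul (Nat.pow_le_pow_left a1 _) (Nat.pow_le_pow_left ?_ _)
  nlinarith [Nat.pow_le_pow_left a1 2]

lemma fam_inv {CS : Set (Ed n) → Prop} {N b : ℕ → ℕ} (h0 : 1 ≤ N 0) (h1 : n ≤ b 0) (t : ℕ)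
    {y : St n} (hy : y ∈ Fam CS N b t) : y.1.card ≤ N t ∧ ∀ V ∈ y.1, V.card ≤ b t := by
  cases t with
  | zero =>
    obtain rfl : y = ({univ}, ∅) := hy
    refine ⟨by simpa using h0, fun V hV => ?_⟩
    rw [mem_singleton.1 hV]
    simpa using h1
  | succ t =>
    obtain ⟨x, _, k⟩ := Set.mem_iUnion₂.1 hy
    exact ⟨k.1, fun V hV => (k.2.1 V hV).1⟩

theorem fam_card {CS : Set (Ed n) → Prop} (hCS : Uq CS) {N b c : ℕ → ℕ} (h0 : 1 ≤ N 0)
    (h1 : n ≤ b 0) (h2 : ∀ s, N s * 2 ^ b s + 1 ≤ 2 ^ c s) (t : ℕ) :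
    (Fam CS N b t).ncard ≤ 2 ^ (∑ s ∈ range t, 5 * N (s + 1) * c s) := by
  induction t with
  | zero => simp [Fam]
  | succ t ih =>
    have := ((Set.toFinite (Fam CS N b t)).toFinset.set_ncard_biUnion_le
      (fun y => Step CS (N (t + 1)) (b (t + 1)) y)).trans (sum_le_card_nsmul _ _ _ (fun y hy => by
        have k := fam_inv h0 h1 t ((Set.Finite.mem_toFinset _).1 hy)
        exact step_card hCS k.1 k.2 (h2 t)))
    rw [← Set.ncard_eq_toFinset_card, smul_eq_mul] at this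
    simp only [Set.Finite.mem_toFinset] at this
    rw [sum_range_succ, pow_add]
    exact this.trans (Nat.mul_le_mul_right _ ih)

lemma fam_mono {CS CS' : Set (Ed n) → Prop} (h : ∀ M, CS M → CS' M) {N N' : ℕ → ℕ}
    (hN : ∀ t, N t ≤ N' t) (b : ℕ → ℕ) (t : ℕ) : Fam CS N b t ⊆ Fam CS' N' b t := by
  induction t with
  | zero => exact fun _ k => k
  | succ t ih =>
    intro z hz
    obtain ⟨y, a, k1, k2, W, k3, k4, k5⟩ := Set.mem_iUnion₂.1 hz
    exact Set.mem_iUnion₂.2 ⟨y, ih a, k1.trans (hN _), k2, W,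
      k3.trans (Nat.mul_le_mul_left _ (hN _)), fun M hM => ⟨h M (k4 M hM).1, (k4 M hM).2⟩, k5⟩

section blocks
variable {κ : Type} [Fintype κ]

noncomputable def ck (U : Set (Fin n ⊕ κ)) : Finset κ := univ.filter (fun k => Sum.inr k ∈ U)
noncomputable def cd (U : Set (Fin n ⊕ κ)) : Finset (Fin n) := univ.filter (fun i => Sum.inl i ∈ U)
noncomputable def bl (j : ℕ) (U : Set (Fin n ⊕ κ)) : ℕ := (ck U).card + (cd U).card / 2 ^ j

lemma ck_mono {U U' : Set (Fin n ⊕ κ)} (h : U ⊆ U') : ck U ⊆ ck U' :=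
  fun _ k => mem_filter.2 ⟨mem_univ _, h (mem_filter.1 k).2⟩

omit [Fintype κ] in
lemma cd_mono {U U' : Set (Fin n ⊕ κ)} (h : U ⊆ U') : cd U ⊆ cd U' :=
  fun _ k => mem_filter.2 ⟨mem_univ _, h (mem_filter.1 k).2⟩

lemma bl_mono (j : ℕ) {U U' : Set (Fin n ⊕ κ)} (h : U ⊆ U') : bl j U ≤ bl j U' :=
  Nat.add_le_add (card_le_card (ck_mono h)) (Nat.div_le_div_right (card_le_card (cd_mono h)))

lemma bl_lt (j : ℕ) (U : Set (Fin n ⊕ κ)) : bl j U < Fintype.card κ + n / 2 ^ j + 1 := by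
  have a : (cd U).card ≤ n := by simpa using card_le_univ (cd U)
  exact Nat.lt_succ_of_le (Nat.add_le_add (card_le_univ _) (Nat.div_le_div_right a))

lemma bl_eq {j : ℕ} {U U' : Set (Fin n ⊕ κ)} (h : U ⊆ U' ∨ U' ⊆ U) (e : bl j U = bl j U') :
    (ck U).card = (ck U').card ∧ (cd U).card / 2 ^ j = (cd U').card / 2 ^ j := by
  unfold bl at e
  rcases h with h | h <;> have a := card_le_card (ck_mono h) <;>
    have b := Nat.div_le_div_right (c := 2 ^ j) (card_le_card (cd_mono h)) <;> omega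

lemma bl_succ {j : ℕ} {U U' : Set (Fin n ⊕ κ)} (h : U ⊆ U' ∨ U' ⊆ U) (e : bl j U = bl j U') :
    bl (j + 1) U = bl (j + 1) U' := by
  obtain ⟨a, b⟩ := bl_eq h e
  unfold bl
  rw [pow_succ, ← Nat.div_div_eq_div_mul, ← Nat.div_div_eq_div_mul, a, b]

variable (C : Set (Set (Fin n ⊕ κ)))

def Inb (j β : ℕ) (π : Fin n ⊕ κ) : Prop :=
  ∃ U ∈ C, ∃ U' ∈ C, bl j U = β ∧ bl j U' = β ∧ π ∈ U' ∧ π ∉ U

variable {C} (hC : ∀ U ∈ C, ∀ U' ∈ C, U ⊆ U' ∨ U' ⊆ U)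
include hC

lemma inb_inl {j β : ℕ} {π : Fin n ⊕ κ} (h : Inb C j β π) : 0 < j ∧ ∃ i, π = .inl i := by
  obtain ⟨U, hU, U', hU', e, e', a, b⟩ := h
  have k := bl_eq (hC U hU U' hU') (e.trans e'.symm)
  have s : U ⊆ U' := (hC U hU U' hU').resolve_right (fun c => b (c a))
  rcases π with i | i
  · refine ⟨Nat.pos_of_ne_zero (fun c => ?_), i, rfl⟩
    rw [c, pow_zero, Nat.div_one, Nat.div_one] at k
    have := eq_of_subset_of_card_le (cd_mono s) k.2.ge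
    exact b (mem_filter.1 (this ▸ mem_filter.2 ⟨mem_univ _, a⟩ : i ∈ cd U)).2
  · have := eq_of_subset_of_card_le (ck_mono s) k.1.ge
    exact absurd (mem_filter.1 (this ▸ mem_filter.2 ⟨mem_univ _, a⟩ : i ∈ ck U)).2 b

lemma inb_succ {j : ℕ} {U : Set (Fin n ⊕ κ)} (hU : U ∈ C) {π : Fin n ⊕ κ}
    (h : Inb C j (bl j U) π) : Inb C (j + 1) (bl (j + 1) U) π := by
  obtain ⟨X, hX, X', hX', e, e', a⟩ := h
  exact ⟨X, hX, X', hX', bl_succ (hC _ hX _ hU) e, bl_succ (hC _ hX' _ hU) e', a⟩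

lemma inb_card (j β : ℕ) : (univ.filter (fun i => Inb C j β (.inl i))).card ≤ 2 ^ j := by
  set F := univ.filter (fun U => U ∈ C ∧ bl j U = β) with hF
  rcases F.eq_empty_or_nonempty with k | k
  · rw [filter_eq_empty_iff.2, card_empty]
    · exact Nat.zero_le _
    rintro i _ ⟨U, hU, _, _, e, _⟩
    exact absurd (k ▸ mem_filter.2 ⟨mem_univ U, hU, e⟩ : U ∈ ∅) (notMem_empty U)
  obtain ⟨U0, a0, m0⟩ := exists_min_image F (fun U => (cd U).card) k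
  obtain ⟨U1, a1, m1⟩ := exists_max_image F (fun U => (cd U).card) k
  obtain ⟨_, c0, e0⟩ := mem_filter.1 a0
  obtain ⟨_, c1, e1⟩ := mem_filter.1 a1
  have s : ∀ U ∈ C, ∀ U' ∈ C, (cd U).card ≤ (cd U').card → cd U ⊆ cd U' := by
    intro U hU U' hU' k
    rcases hC U hU U' hU' with c | c
    · exact cd_mono c
    · exact (eq_of_subset_of_card_le (cd_mono c) k).ge
  have h : univ.filter (fun i => Inb C j β (.inl i)) ⊆ cd U1 \ cd U0 := by
    intro i hi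
    obtain ⟨U, hU, U', hU', e, e', a, b⟩ := (mem_filter.1 hi).2
    exact mem_sdiff.2 ⟨s _ hU' _ c1 (m1 _ (mem_filter.2 ⟨mem_univ _, hU', e'⟩))
      (mem_filter.2 ⟨mem_univ _, a⟩), fun c => b (mem_filter.1
        (s _ c0 _ hU (m0 _ (mem_filter.2 ⟨mem_univ _, hU, e⟩)) c)).2⟩
  refine (card_le_card h).trans ?_
  rw [card_sdiff_of_subset (s _ c0 _ c1 (m1 _ a0))]
  have b := (bl_eq (hC _ c0 _ c1) (e0.trans e1.symm)).2
  have b0 := Nat.div_add_mod (cd U0).card (2 ^ j)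
  have b1 := Nat.div_add_mod (cd U1).card (2 ^ j)
  have b2 := Nat.mod_lt (cd U1).card (Nat.two_pow_pos j)
  rw [b] at b0
  omega

end blocks

end Pool.Agent.Lib.MP_5bf547_cnt
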