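import Mathlib
import Pool.Agent.Lib.MP_5bf547_cnt.Enc

/-! An edge set carrying a laminar system of separating sets has a nested encoding. -/

namespace Pool.Agent.Lib.MP_5bf547_cnt

open Classical Finset

variable {n : ℕ}

/-- number of blocks pairs at stage `t` -/
def NN (k n J t : ℕ) : ℕ := 3 * (k + n / 2 ^ (J + 1 - t) + 1)
/-- size of the candidate sets at stage `t` -/
def BB (J t : ℕ) : ℕ := 10 * 2 ^ (J + 1 - t)

theorem mem_fam {κ : Type} [Fintype κ] (E : Set (Ed n)) (τ η : Ed n → Fin n ⊕ κ)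
    (S : Ed n → Set (Fin n ⊕ κ)) (Cr : Ed n → Ed n → Prop) (CS : Set (Ed n) → Prop)
    (hτ : ∀ e ∈ E, ∀ i, τ e = .inl i → i = e.1) (hη : ∀ e ∈ E, ∀ i, η e = .inl i → i = e.2)
    (hsep : ∀ e ∈ E, (τ e ∈ S e ↔ η e ∉ S e))
    (hL : ∀ e ∈ E, ∀ e' ∈ E, S e ⊆ S e' ∨ S e' ⊆ S e ∨ Disjoint (S e) (S e'))
    (hP : ∀ e ∈ E, ∀ e' ∈ E, e ≠ e' → (τ e ∈ S e' ↔ η e ∉ S e') → (τ e' ∈ S e ↔ η e' ∉ S e) →
      Cr e e')
    (hCr : ∀ e e', Cr e e' → e.1 ≠ e'.1 ∧ e.2 ≠ e'.2)
    (hCS : ∀ M ⊆ E, (∀ e ∈ M, ∀ e' ∈ M, e ≠ e' → Cr e e') → CS M) (J : ℕ) :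
    ∃ W, (W, E) ∈ Fam CS (NN (Fintype.card κ) n J) (BB J) (J + 1) := by
  obtain ⟨C, lo, hi, hC, c1, c2, c3, c4⟩ := lam_chain E S (fun e he => by
    by_cases k : η e ∈ S e
    · exact ⟨_, k⟩
    · exact ⟨_, (hsep e he).2 k⟩) hL
  let key : ℕ → Ed n → ℕ × ℕ := fun j e => (bl j (lo e), bl j (hi e))
  let In : ℕ → ℕ × ℕ → Fin n ⊕ κ → Prop := fun j z π => Inb C j z.1 π ∨ Inb C j z.2 π
  have in1 : ∀ j z π, In j z π → 0 < j ∧ ∃ i, π = .inl i := fun j z π h =>
    h.elim (inb_inl hC) (inb_inl hC)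
  have in2 : ∀ j e π, In j (key j e) π → In (j + 1) (key (j + 1) e) π := fun j e π h =>
    h.imp (inb_succ hC (c1 e).1) (inb_succ hC (c1 e).2)
  have in3 : ∀ j z, (univ.filter (fun i => In j z (.inl i))).card ≤ 2 * 2 ^ j := by
    intro j z
    have a := inb_card hC j z.1
    have b := inb_card hC j z.2
    have := card_union_le (univ.filter (fun i => Inb C j z.1 (.inl i)))
      (univ.filter (fun i => Inb C j z.2 (.inl i)))
    rw [← filter_or] at this
    refine le_trans (le_of_eq ?_) (this.trans (by omega))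
    congr
  have ky1 : ∀ j e e', key j e = key j e' → key (j + 1) e = key (j + 1) e' := fun j e e' h =>
    Prod.ext (bl_succ (hC _ (c1 e).1 _ (c1 e').1) (congrArg Prod.fst h))
      (bl_succ (hC _ (c1 e).2 _ (c1 e').2) (congrArg Prod.snd h))
  have ky2 : ∀ j, ∀ e ∈ E, ∀ e' ∈ E, key j e = key j e' → ∀ π, ¬ In j (key j e) π → π ∈ S e →
      π ∈ S e' := by
    intro j e he e' he' h π k a
    obtain ⟨a1, a2⟩ := (c2 e he π).1 a
    refine (c2 e' he' π).2 ⟨?_, fun c => ?_⟩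
    · by_contra c
      exact k (Or.inr ⟨_, (c1 e').2, _, (c1 e).2, (congrArg Prod.snd h).symm, rfl, a1, c⟩)
    · exact k (Or.inl ⟨_, (c1 e).1, _, (c1 e').1, rfl, (congrArg Prod.fst h).symm, c, a2⟩)
  have ky3 : ∀ j, ∀ e ∈ E, ∀ e' ∈ E, key j e = key j e' → ∀ π, ¬ In j (key j e) π →
      (π ∈ S e ↔ π ∈ S e') := fun j e he e' he' h π k =>
    ⟨ky2 j e he e' he' h π k, ky2 j e' he' e he h.symm π (h ▸ k)⟩
  let keys : ℕ → Finset (ℕ × ℕ) := fun j => (univ.filter (· ∈ E)).image (key j)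
  have ky4 : ∀ j, (keys j).card ≤ 3 * (Fintype.card κ + n / 2 ^ j + 1) := by
    intro j
    refine pairs_card _ _ (fun z hz => ?_) (fun z hz z' hz' => ?_)
    · obtain ⟨e, he, rfl⟩ := mem_image.1 hz
      exact ⟨bl_mono j (c3 e (mem_filter.1 he).2), bl_lt j _⟩
    · obtain ⟨e, he, rfl⟩ := mem_image.1 hz
      obtain ⟨e', he', rfl⟩ := mem_image.1 hz'
      exact (c4 e (mem_filter.1 he).2 e' (mem_filter.1 he').2).imp
        (fun k => ⟨bl_mono j k.1, bl_mono j k.2⟩) (Or.imp (fun k => ⟨bl_mono j k.1, bl_mono j k.2⟩)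
        (Or.imp (bl_mono j) (bl_mono j)))
  let H : ℕ → ℕ × ℕ → Finset (Ed n) := fun j z =>
    univ.filter (fun e => e ∈ E ∧ key j e = z ∧ In j z (τ e) ∧ ¬ In j z (η e))
  let T : ℕ → ℕ × ℕ → Finset (Ed n) := fun j z =>
    univ.filter (fun e => e ∈ E ∧ key j e = z ∧ In j z (η e) ∧ ¬ In j z (τ e))
  have hH : ∀ j z, (H j z).card ≤ 2 * (2 * 2 ^ j) := by
    intro j z
    refine (card_le_card_of_injOn (t := (univ : Finset Prop) ×ˢ
      univ.filter (fun i => In j z (.inl i))) (fun e => (η e ∈ S e, e.1)) (fun e he => ?_)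
      (fun e he e' he' k => ?_)).trans (by
        rw [card_product, card_univ, Fintype.card_prop]; exact Nat.mul_le_mul_left _ (in3 j z))
    · obtain ⟨_, a, _, b, _⟩ := mem_filter.1 (mem_coe.1 he)
      obtain ⟨_, i, hi⟩ := in1 _ _ _ b
      refine mem_coe.2 (mem_product.2 ⟨mem_univ _, mem_filter.2 ⟨mem_univ _, ?_⟩⟩)
      rwa [hi, hτ e a i hi] at b
    · obtain ⟨_, a, a1, b, c⟩ := mem_filter.1 (mem_coe.1 he)
      obtain ⟨_, a', a1', b', c'⟩ := mem_filter.1 (mem_coe.1 he')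
      obtain ⟨k1, k2⟩ := Prod.mk.inj k
      obtain ⟨_, i, hi⟩ := in1 _ _ _ b
      obtain ⟨_, i', hi'⟩ := in1 _ _ _ b'
      have e0 : τ e = τ e' := by rw [hi, hi', hτ e a i hi, hτ e' a' i' hi', k2]
      by_contra hne
      refine (hCr _ _ (hP e a e' a' hne ?_ ?_)).1 k2
      · rw [e0, hsep e' a', ← k1, ky3 j e a e' a' (a1.trans a1'.symm) _ (a1 ▸ c)]
      · rw [← e0, hsep e a, k1, ky3 j e' a' e a (a1'.trans a1.symm) _ (a1' ▸ c')]
  have hT : ∀ j z, (T j z).card ≤ 2 * (2 * 2 ^ j) := by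
    intro j z
    refine (card_le_card_of_injOn (t := (univ : Finset Prop) ×ˢ
      univ.filter (fun i => In j z (.inl i))) (fun e => (τ e ∈ S e, e.2)) (fun e he => ?_)
      (fun e he e' he' k => ?_)).trans (by
        rw [card_product, card_univ, Fintype.card_prop]; exact Nat.mul_le_mul_left _ (in3 j z))
    · obtain ⟨_, a, _, b, _⟩ := mem_filter.1 (mem_coe.1 he)
      obtain ⟨_, i, hi⟩ := in1 _ _ _ b
      refine mem_coe.2 (mem_product.2 ⟨mem_univ _, mem_filter.2 ⟨mem_univ _, ?_⟩⟩)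
      rwa [hi, hη e a i hi] at b
    · obtain ⟨_, a, a1, b, c⟩ := mem_filter.1 (mem_coe.1 he)
      obtain ⟨_, a', a1', b', c'⟩ := mem_filter.1 (mem_coe.1 he')
      obtain ⟨k1, k2⟩ := Prod.mk.inj k
      obtain ⟨_, i, hi⟩ := in1 _ _ _ b
      obtain ⟨_, i', hi'⟩ := in1 _ _ _ b'
      have e0 : η e = η e' := by rw [hi, hi', hη e a i hi, hη e' a' i' hi', k2]
      by_contra hne
      refine (hCr _ _ (hP e a e' a' hne ?_ ?_)).2 k2
      · rw [e0, ← hsep e' a', ← k1, ky3 j e a e' a' (a1.trans a1'.symm) _ (a1 ▸ c)]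
      · rw [← e0, ← hsep e a, k1, ky3 j e' a' e a (a1'.trans a1.symm) _ (a1' ▸ c')]
  let V : ℕ → ℕ × ℕ → Finset (Fin n) := fun j z =>
    univ.filter (fun i => In j z (.inl i)) ∪ (H j z).image Prod.snd ∪ (T j z).image Prod.fst
  have hV : ∀ j z, (V j z).card ≤ 10 * 2 ^ j := by
    intro j z
    have a := card_union_le (univ.filter (fun i => In j z (.inl i)) ∪ (H j z).image Prod.snd)
      ((T j z).image Prod.fst)
    have b := card_union_le (univ.filter (fun i => In j z (.inl i))) ((H j z).image Prod.snd)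
    have c := (card_image_le (f := Prod.snd)).trans (hH j z)
    have d := (card_image_le (f := Prod.fst)).trans (hT j z)
    have := in3 j z
    simp only [V]
    omega
  have v1 : ∀ j z i, In j z (.inl i) → i ∈ V j z := fun j z i h =>
    mem_union_left _ (mem_union_left _ (mem_filter.2 ⟨mem_univ _, h⟩))
  have v2 : ∀ j, ∀ e ∈ E, In j (key j e) (τ e) ∨ In j (key j e) (η e) →
      e.1 ∈ V j (key j e) ∧ e.2 ∈ V j (key j e) := by
    intro j e he h
    constructor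
    · by_cases k : In j (key j e) (τ e)
      · obtain ⟨_, i, hi⟩ := in1 _ _ _ k
        exact v1 _ _ _ (by rwa [hi, hτ e he i hi] at k)
      · exact mem_union_right _ (mem_image_of_mem _
          (mem_filter.2 ⟨mem_univ _, he, rfl, h.resolve_left k, k⟩))
    · by_cases k : In j (key j e) (η e)
      · obtain ⟨_, i, hi⟩ := in1 _ _ _ k
        exact v1 _ _ _ (by rwa [hi, hη e he i hi] at k)
      · exact mem_union_left _ (mem_union_right _ (mem_image_of_mem _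
          (mem_filter.2 ⟨mem_univ _, he, rfl, h.resolve_right k, k⟩)))
  have v3 : ∀ j e, V j (key j e) ⊆ V (j + 1) (key (j + 1) e) := by
    intro j e i hi
    rcases mem_union.1 hi with k | k
    · rcases mem_union.1 k with k | k
      · exact v1 _ _ _ (in2 _ _ _ (mem_filter.1 k).2)
      · obtain ⟨g, hg, rfl⟩ := mem_image.1 k
        obtain ⟨_, a, b, c, _⟩ := mem_filter.1 hg
        rw [← ky1 j g e b]
        exact (v2 _ g a (Or.inl (in2 _ _ _ (b ▸ c)))).2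
    · obtain ⟨g, hg, rfl⟩ := mem_image.1 k
      obtain ⟨_, a, b, c, _⟩ := mem_filter.1 hg
      rw [← ky1 j g e b]
      exact (v2 _ g a (Or.inr (in2 _ _ _ (b ▸ c)))).1
  let Out : ℕ → Set (Ed n) := fun j => {e | e ∈ E ∧ ¬ In j (key j e) (τ e) ∧ ¬ In j (key j e) (η e)}
  have step : ∀ j (y : St n) (par : Ed n → Finset (Fin n)), y.2 ⊆ Out j → (∀ e ∈ E, par e ∈ y.1) →
      (∀ e ∈ E, V j (key j e) ⊆ par e) → (∀ e e', key j e = key j e' → par e = par e') →
      (∀ e ∈ E, e ∉ y.2 → e.1 ∈ par e ∧ e.2 ∈ par e) →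
      ((keys j).image (V j), Out j) ∈ Step CS (3 * (Fintype.card κ + n / 2 ^ j + 1)) (10 * 2 ^ j) y := by
    intro j y par p0 p1 p2 p3 p4
    let G : Ed n → Set (Ed n) := fun e =>
      {g | g ∈ Out j ∧ g ∉ y.2 ∧ key j g = key j e ∧ (η g ∈ S g ↔ η e ∈ S e)}
    refine ⟨card_image_le.trans (ky4 j), fun X hX => ?_, (univ.filter (· ∈ E)).image G, ?_,
      fun M hM => ?_, ?_⟩
    · obtain ⟨z, hz, rfl⟩ := mem_image.1 hX
      obtain ⟨e, he, rfl⟩ := mem_image.1 hz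
      exact ⟨hV _ _, par e, p1 e (mem_filter.1 he).2, p2 e (mem_filter.1 he).2⟩
    · let G' : Prop × ℕ × ℕ → Set (Ed n) := fun z =>
        {g | g ∈ Out j ∧ g ∉ y.2 ∧ key j g = z.2 ∧ (η g ∈ S g ↔ z.1)}
      refine (card_le_card (t := (univ ×ˢ keys j).image G') (fun M hM => ?_)).trans
        (card_image_le.trans ?_)
      · obtain ⟨e, he, rfl⟩ := mem_image.1 hM
        exact mem_image.2 ⟨(η e ∈ S e, key j e),
          mem_product.2 ⟨mem_univ _, mem_image_of_mem _ he⟩, rfl⟩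
      · rw [card_product, card_univ, Fintype.card_prop]
        exact Nat.mul_le_mul_left _ (ky4 j)
    · obtain ⟨e, he, rfl⟩ := mem_image.1 hM
      refine ⟨hCS _ (fun g hg => hg.1.1) (fun g hg g' hg' hne => ?_), par e,
        p1 e (mem_filter.1 he).2, fun g hg => p3 g e hg.2.2.1 ▸ p4 g hg.1.1 hg.2.1⟩
      obtain ⟨⟨a1, a2, a3⟩, _, a4, a5⟩ := hg
      obtain ⟨⟨b1, b2, b3⟩, _, b4, b5⟩ := hg'
      refine hP g a1 g' b1 hne ?_ ?_
      · rw [← ky3 j g a1 g' b1 (a4.trans b4.symm) _ a2, ← ky3 j g a1 g' b1 (a4.trans b4.symm) _ a3]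
        exact hsep g a1
      · rw [← ky3 j g' b1 g a1 (b4.trans a4.symm) _ b2, ← ky3 j g' b1 g a1 (b4.trans a4.symm) _ b3]
        exact hsep g' b1
    · refine Set.Subset.antisymm (fun g hg => ?_) (Set.union_subset p0 (Set.iUnion₂_subset ?_))
      · by_cases k : g ∈ y.2
        · exact Or.inl k
        · exact Or.inr (Set.mem_iUnion₂.2 ⟨G g, mem_image_of_mem _
            (mem_filter.2 ⟨mem_univ _, hg.1⟩), hg, k, rfl, Iff.rfl⟩)
      · intro M hM
        obtain ⟨e, _, rfl⟩ := mem_image.1 hM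
        exact fun g hg => hg.1
  have main : ∀ d, d ≤ J → ((keys (J - d)).image (V (J - d)), Out (J - d)) ∈
      Fam CS (NN (Fintype.card κ) n J) (BB J) (d + 1) := by
    intro d hd
    induction d with
    | zero =>
      refine Set.mem_iUnion₂.2 ⟨({univ}, ∅), rfl, ?_⟩
      simp only [NN, BB, zero_add, Nat.add_sub_cancel, Nat.sub_zero]
      exact step J _ (fun _ => univ) (Set.empty_subset _) (fun _ _ => mem_singleton_self _)
        (fun _ _ => subset_univ _) (fun _ _ _ => rfl) (fun _ _ _ => ⟨mem_univ _, mem_univ _⟩)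
    | succ d ih =>
      refine Set.mem_iUnion₂.2 ⟨_, ih (by omega), ?_⟩
      obtain ⟨j, hj⟩ : ∃ j, J - d = j + 1 := ⟨J - d - 1, by omega⟩
      simp only [NN, BB, show J + 1 - (d + 1 + 1) = j by omega, show J - (d + 1) = j by omega, hj]
      refine step j _ (fun e => V (j + 1) (key (j + 1) e))
        (fun g hg => ⟨hg.1, fun c => hg.2.1 (in2 _ _ _ c), fun c => hg.2.2 (in2 _ _ _ c)⟩)
        (fun e he => mem_image_of_mem _ (mem_image_of_mem _ (mem_filter.2 ⟨mem_univ _, he⟩)))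
        (fun e _ => v3 j e) (fun e e' k => by rw [ky1 j e e' k]) (fun e he k => v2 _ e he ?_)
      by_contra c
      exact k ⟨he, fun a => c (Or.inl a), fun a => c (Or.inr a)⟩
  have := main J le_rfl
  rw [Nat.sub_self, show Out 0 = E from Set.Subset.antisymm (fun g hg => hg.1)
    (fun g hg => ⟨hg, fun c => lt_irrefl _ (in1 _ _ _ c).1, fun c => lt_irrefl _ (in1 _ _ _ c).1⟩)]
    at this
  exact ⟨_, this⟩

end Pool.Agent.Lib.MP_5bf547_cnt
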