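import Mathlib
import Pool.Agent.Lib.MP_5bf547_co.Fam
import Pool.Agent.Lib.MP_5bf547_cnt.Cut
import Pool.Agent.Lib.MP_5bf547_cnt.Mem

/-! The edges touched from above by `h` faces have a nested encoding. -/

namespace Pool.Agent.Lib.MP_5bf547_cnt

open Classical Finset Pool.Agent.Lib.MP_5bf547_co Pool.Agent.Lib.MP_5bf547_lin Topology

variable {n h : ℕ} {p : Fin n → Pt} {B : Set (Fin n × Fin n)} {z : Fin h → Pt}

/-- pairwise crossing systems -/
def CSp (p : Fin n → Pt) (M : Set (Ed n)) : Prop :=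
  ∀ e ∈ M, (p e.1).1 < (p e.2).1 ∧ ∀ e' ∈ M, e ≠ e' → Crs p e e'

lemma csp_uq (hg : Gen p) : Uq (CSp p) := by
  have key : ∀ M M', CSp p M → CSp p M' → Prod.fst '' M = Prod.fst '' M' →
      Prod.snd '' M = Prod.snd '' M' → M' ⊆ M := fun M M' a b c d e he =>
    crossSys_sub hg (π := fun _ => e.1) (fun g k => ⟨(a g k).1, rfl, fun g' k' x _ => (a g k).2 g' k' x⟩)
      (fun g k => ⟨(b g k).1, rfl, fun g' k' x _ => (b g k).2 g' k' x⟩) c d he
  exact fun M M' a b c d => Set.Subset.antisymm (key M' M b a c.symm d.symm) (key M M' a b c d)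

lemma sub_seg {a b s s' q : Pt} (hab : a.1 < b.1) (hs : s ∈ segment ℝ a b) (hs' : s' ∈ segment ℝ a b)
    (hq : q ∈ segment ℝ a b) (h : s.1 < s'.1) (h1 : s.1 ≤ q.1) (h2 : q.1 ≤ s'.1) :
    q ∈ segment ℝ s s' := by
  have := ori_sub (ori_of_mem hs) (ori_of_mem hs') q
  rw [ori_of_mem hq, mul_zero] at this
  exact mem_seg_of_on h h1 h2 ((mul_eq_zero.1 this).resolve_left (sub_pos.2 hab).ne')

lemma small_pos {F : Set ℝ} (hF : F.Finite) (h : ∀ x ∈ F, 0 < x) : ∃ ε, 0 < ε ∧ ∀ x ∈ F, ε < x :=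
  (eventually_mem_nhdsWithin.and ((Filter.eventually_all_finite hF).2 (fun x hx =>
    (eventually_lt_nhds (h x hx)).filter_mono (nhdsWithin_le_nhds (s := Set.Ioi 0))))).exists

theorem top_fam (hB : Ordered p B) (hg : Gen p) (hz : ∀ m, z m ∈ Free p B) (J : ℕ) :
    ∃ W, (W, ⋃ m, Top p B (z m)) ∈ Fam (CSp p) (NN (2 * h) n J) (BB J) (J + 1) := by
  obtain ⟨ω, hω, H, hH⟩ := exists_outer p B
  have hZ := zm_mk hω hz
  set E : Set (Ed n) := ⋃ m, Top p B (z m) with hE
  have hEB : ∀ e ∈ E, e ∈ B := fun e he => by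
    obtain ⟨m, k⟩ := Set.mem_iUnion.1 he
    exact k.1
  have ht : ∀ e : Ed n, ∃ (w : Pt) (γ : ℝ × ℝ × ℝ), e ∈ E → Tight (Zm p B ω z) γ ∧ w ∈ bar γ ∧
      w ∈ segment ℝ (p e.1) (p e.2) ∧ (∀ i, w.1 ≠ (p i).1) ∧
      ∀ q ∈ bar γ, q ∉ Zm p B ω z → q.2 ≤ w.2 := by
    intro e
    by_cases he : e ∈ E
    · obtain ⟨m, k⟩ := Set.mem_iUnion.1 he
      obtain ⟨w, γ, a⟩ := exists_touch hB hω hz (fun q k => hH q (Or.inr k)) k
      exact ⟨w, γ, fun _ => a⟩
    · exact ⟨0, 0, fun k => absurd k he⟩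
  choose w γ ht using ht
  have fW : (Crit p ∪ Set.range (fun e => (w e).1)).Finite := crit_finite.union (Set.finite_range _)
  obtain ⟨K, k1, k2, k3⟩ := exists_cuts hB hω hz (fun q k => hH q (Or.inl k)) fW
    (fun i => Or.inl (Or.inl ⟨i, rfl⟩))
  set Z := Zm p B ω z with hZd
  set Bad : Set ℝ := (Crit p ∪ Set.range (fun e => (w e).1)) ∪ Prod.fst '' (K : Set (ℝ × ℝ × ℝ))
    with hBad
  have fB : Bad.Finite := fW.union ((finite_toSet K).image _)
  obtain ⟨ε, hε, hε'⟩ := small_pos (F := (fun u : ℝ × ℝ => |u.1 - u.2|) ''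
    {u | u ∈ Bad ×ˢ Bad ∧ u.1 ≠ u.2}) (((fB.prod fB).subset (fun _ k => k.1)).image _)
    (by rintro _ ⟨u, k, rfl⟩; exact abs_pos.2 (sub_ne_zero.2 k.2))
  have far : ∀ β ∈ K, ∀ s ∈ Bad, s ≠ β.1 → ε < |s - β.1| := fun β hβ s hs k =>
    hε' _ ⟨(s, β.1), ⟨⟨hs, Or.inr ⟨β, hβ, rfl⟩⟩, k⟩, rfl⟩
  let sg : Bool → ℝ := fun b => if b then 1 else -1
  have sg1 : ∀ b, sg b = 1 ∨ sg b = -1 := fun b => by cases b <;> simp [sg]
  let xs : ℝ × ℝ × ℝ → Bool → ℝ := fun β b => β.1 + sg b * ε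
  have xs0 : ∀ β b, |xs β b - β.1| = ε := fun β b => by
    rcases sg1 b with k | k <;> simp [xs, k, abs_of_pos hε]
  have xs1 : ∀ β ∈ K, ∀ b, xs β b ∉ Bad := fun β hβ b k =>
    (far β hβ _ k (fun c => by have := xs0 β b; rw [c] at this; simp at this; linarith)).ne
      (xs0 β b).symm
  have xs2 : ∀ β ∈ K, ∀ b, ∀ t ∈ Set.uIcc β.1 (xs β b), t ∉ Crit p := by
    intro β hβ b t k c
    by_cases a : t = β.1
    · exact (k2 β hβ).2 (Or.inl (a ▸ c))
    · exact absurd (far β hβ t (Or.inl (Or.inl c)) a)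
        (not_lt.2 ((Set.abs_sub_left_of_mem_uIcc k).trans_eq (xs0 β b)))
  let Cx : Ed n → ℝ × ℝ × ℝ → Prop := fun g β =>
    g ∈ B ∧ ∃ q ∈ segment ℝ (p g.1) (p g.2), q ∈ bar β
  let on : Ed n → ℝ → Pt := fun g x => (x, ln (p g.1) (p g.2) x)
  let pt : Fin n ⊕ K × Bool → Pt := Sum.elim p (fun u =>
    if c : ∃ g, Cx g u.1 then on c.choose (xs u.1 u.2) else 0)
  set Y : Set Pt := (Z ∪ cuts K)ᶜ with hY
  have cx1 : ∀ β ∈ K, ∀ g, Cx g β → (on g β.1 ∈ bar β ∧ on g β.1 ∉ Z) ∧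
      ∀ b, (p g.1).1 ≤ xs β b ∧ xs β b ≤ (p g.2).1 := by
    rintro β hβ g ⟨a, q, q1, q2⟩
    obtain ⟨b1, b2, b3⟩ := (seg_ln (hB g a)).1 q1
    have : on g β.1 = q := Prod.ext q2.1.symm (by rw [b3, q2.1])
    rw [q2.1] at b1 b2
    exact ⟨this ▸ ⟨q2, fun c => (hZ.free c).2 g a q1⟩, fun b =>
      span (xs2 β hβ b) Set.left_mem_uIcc Set.right_mem_uIcc b1 b2⟩
  have link : ∀ β ∈ K, ∀ b g g', Cx g β → Cx g' β → ∀ e ∈ E,
      Conn (Y \ bar (γ e)) (on g (xs β b)) (on g' (xs β b)) := by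
    intro β hβ b
    have key : ∀ g g', Cx g β → Cx g' β → ∀ e ∈ E, (on g (xs β b)).2 ≤ (on g' (xs β b)).2 →
        Conn (Y \ bar (γ e)) (on g (xs β b)) (on g' (xs β b)) := by
      intro g g' a a' e he k
      refine Conn.single (fun q hq => ?_)
      obtain ⟨q1, q2, q3⟩ := vert_mem (s := on g (xs β b)) (s' := on g' (xs β b)) rfl k hq
      have q4 : q.1 ∉ Bad := q1 ▸ xs1 β hβ b
      refine ⟨?_, fun c => q4 (Or.inl (Or.inr ⟨e, (ht e he).2.1.1.trans c.1.symm⟩))⟩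
      rintro (c | c)
      · obtain ⟨y', y1, y2, y3⟩ := column hB hZ (xs2 β hβ b)
          (show (xs β b, q.2) ∈ Z by rwa [show (xs β b, q.2) = q from Prod.ext q1.symm rfl])
          a.1 a'.1 ((cx1 β hβ g a).2 b) ((cx1 β hβ g' a').2 b) q2 q3
        have u := (cx1 β hβ g a).1
        have u' := (cx1 β hβ g' a').1
        exact (k2 β hβ).1.cvx _ _ _ u.1.2.1 y2 y3 u'.1.2.2 u.2 u'.2 y1
      · obtain ⟨β', c1, c2⟩ := Set.mem_iUnion₂.1 c
        exact q4 (Or.inr ⟨β', c1, c2.1.symm⟩)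
    intro g g' a a' e he
    rcases le_total (on g (xs β b)).2 (on g' (xs β b)).2 with k | k
    · exact key g g' a a' e he k
    · exact (key g' g a' a e he k).symm
  have side : ∀ (e : Ed n) (b : Bool), ∃ (π : Fin n ⊕ K × Bool) (s : Pt), e ∈ E →
      (∀ i, π = .inl i → i = if b then e.1 else e.2) ∧ s ∈ segment ℝ (p e.1) (p e.2) ∧
      sg b * s.1 < sg b * (w e).1 ∧ (∀ e' ∈ E, Conn (Y \ bar (γ e')) (pt π) s) ∧
      segment ℝ s (w e) ⊆ Y := by
    intro e b
    by_cases he : e ∈ E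
    swap
    · exact ⟨.inl e.1, 0, fun k => absurd k he⟩
    obtain ⟨-, -, t3, t4, -⟩ := ht e he
    have sy : ∀ s ∈ segment ℝ (p e.1) (p e.2), sg b * s.1 < sg b * (w e).1 →
        (∀ β ∈ K, Cx e β → sg b * β.1 < sg b * (w e).1 → sg b * β.1 < sg b * s.1) →
        segment ℝ s (w e) ⊆ Y := by
      intro s s1 s2 s3 q hq
      have q1 := seg_sub s1 t3 hq
      rintro (c | c)
      · exact (hZ.free c).2 e (hEB e he) q1
      obtain ⟨β, c1, c2⟩ := Set.mem_iUnion₂.1 c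
      obtain ⟨t, t0, t1, e1, -⟩ := mem_seg_iff.1 hq
      have a : sg b * β.1 = sg b * s.1 + t * (sg b * (w e).1 - sg b * s.1) := by
        rw [← c2.1, e1]; ring
      have a1 : sg b * β.1 ≠ sg b * (w e).1 := fun k => (k2 β c1).2 (Or.inr ⟨e, by
        rcases sg1 b with d | d <;> rw [d] at k <;> simp only <;> linarith⟩)
      have := s3 β c1 ⟨hEB e he, q, q1, c2⟩ (lt_of_le_of_ne (by nlinarith) a1)
      nlinarith
    rcases (K.filter (fun β => Cx e β ∧ sg b * β.1 < sg b * (w e).1)).eq_empty_or_nonempty with k | k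
    · obtain ⟨x1, x2⟩ := x_of_mem (hB e (hEB e he)).le t3
      have m : p (if b then e.1 else e.2) ∈ segment ℝ (p e.1) (p e.2) := by
        cases b
        · exact right_mem_segment _ _ _
        · exact left_mem_segment _ _ _
      have l : sg b * (p (if b then e.1 else e.2)).1 < sg b * (w e).1 := by
        have := lt_of_le_of_ne x1 (t4 _).symm
        have := lt_of_le_of_ne x2 (t4 _)
        cases b <;> simp only [sg, if_true, Bool.false_eq_true, if_false] <;> linarith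
      exact ⟨.inl (if b then e.1 else e.2), p (if b then e.1 else e.2), fun _ =>
        ⟨fun i k => (Sum.inl.inj k).symm, m, l, fun _ _ => Conn.refl _ _, sy _ m l (fun β c1 c2 c3 =>
          absurd (k ▸ mem_filter.2 ⟨c1, c2, c3⟩ : β ∈ ∅) (notMem_empty β))⟩⟩
    obtain ⟨β, hβ, mx⟩ := exists_max_image _ (fun β => sg b * β.1) k
    obtain ⟨c1, c2, c3⟩ := mem_filter.1 hβ
    have m : on e (xs β b) ∈ segment ℝ (p e.1) (p e.2) :=
      (seg_ln (hB e c2.1)).2 ⟨((cx1 β c1 e c2).2 b).1, ((cx1 β c1 e c2).2 b).2, rfl⟩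
    have l0 : sg b * xs β b = sg b * β.1 + ε := by
      rcases sg1 b with d | d <;> simp only [xs, d] <;> ring
    have l : sg b * xs β b < sg b * (w e).1 := by
      have := far β c1 (w e).1 (Or.inl (Or.inr ⟨e, rfl⟩)) (fun a => by rw [a] at c3; linarith)
      rw [l0]
      rcases sg1 b with d | d <;> rw [d] at c3 ⊢
      · rw [abs_of_pos (by linarith)] at this; linarith
      · rw [abs_of_neg (by linarith)] at this; linarith
    refine ⟨.inr (⟨β, c1⟩, b), on e (xs β b), fun _ => ⟨fun i k => by simp at k, m, l,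
      fun e' he' => ?_, sy _ m l (fun β' d1 d2 d3 => ?_)⟩⟩
    · have c : ∃ g, Cx g β := ⟨e, c2⟩
      simp only [pt, Sum.elim_inr, dif_pos c]
      exact link β c1 b _ _ c.choose_spec c2 e' he'
    · have := mx β' (mem_filter.2 ⟨d1, d2, d3⟩)
      change _ < sg b * xs β b
      linarith
  choose π s side using side
  have sl : ∀ e ∈ E, (s e true).1 < (w e).1 := fun e he => by
    simpa [sg] using (side e true he).2.2.1
  have sr : ∀ e ∈ E, (w e).1 < (s e false).1 := fun e he => by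
    simpa [sg] using (side e false he).2.2.1
  have sY : ∀ e ∈ E, segment ℝ (s e true) (s e false) ⊆ Y := by
    intro e he q hq
    have a := (side e true he).2.1
    have b := (side e false he).2.1
    have c := x_of_mem ((sl e he).trans (sr e he)).le hq
    rcases le_total q.1 (w e).1 with k | k
    · exact (side e true he).2.2.2.2
        (sub_seg (hB e (hEB e he)) a (ht e he).2.2.1 (seg_sub a b hq) (sl e he) c.1 k)
    · refine (side e false he).2.2.2.2 ?_
      rw [segment_symm]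
      exact sub_seg (hB e (hEB e he)) (ht e he).2.2.1 b (seg_sub a b hq) (sr e he) k c.2
  have F1 : ∀ e ∈ E, ¬ Conn (Y \ bar (γ e)) (pt (π e true)) (pt (π e false)) := by
    intro e he k
    obtain ⟨t1, t2, t3, -⟩ := ht e he
    exact sep_par ((k3 _ t1.lo).symm.trans (k3 _ t1.hi)) (Or.inl t1.lo) t2 (sl e he) (sr e he)
      (sub_seg (hB e (hEB e he)) (side e true he).2.1 (side e false he).2.1 t3
        ((sl e he).trans (sr e he)) (sl e he).le (sr e he).le) (sY e he)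
      ((((side e true he).2.2.2.1 e he).symm.trans k).trans ((side e false he).2.2.2.1 e he))
  let bs : Ed n → Pt := fun e => Classical.epsilon (fun q => Conn Y (w e) q)
  have bs1 : ∀ e, Conn Y (w e) (bs e) := fun e =>
    Classical.epsilon_spec (p := fun q => Conn Y (w e) q) ⟨_, Conn.refl _ _⟩
  have hc : ∀ e, ∃ b, e ∈ E → ¬ Conn (Y \ bar (γ e)) (pt (π e b)) (bs e) := by
    intro e
    by_cases k : Conn (Y \ bar (γ e)) (pt (π e false)) (bs e)
    · exact ⟨true, fun he c => F1 e he (c.trans k.symm)⟩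
    · exact ⟨false, fun _ => k⟩
  choose c hc using hc
  have c1 : ∀ e ∈ E, pt (π e (c e)) ∈ Y \ bar (γ e) ∧ Conn Y (w e) (pt (π e (c e))) := by
    intro e he
    obtain ⟨-, -, a1, a2, a3⟩ := side e (c e) he
    refine ⟨(a2 e he).symm.mem ⟨a3 (left_mem_segment _ _ _), fun k => ?_⟩,
      (Conn.single a3).symm.trans ((a2 e he).symm.mono Set.sdiff_subset)⟩
    rw [k.1, (ht e he).2.1.1] at a1
    exact lt_irrefl _ a1
  have wY : ∀ e ∈ E, w e ∈ Y := fun e he => (side e true he).2.2.2.2 (right_mem_segment _ _ _)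
  have bY : ∀ e ∈ E, ∀ u ∈ bar (γ e), ∀ v ∈ bar (γ e), u ∈ Y → v ∈ Y → segment ℝ u v ⊆ Y := by
    intro e he u hu v hv a b q hq
    rintro (k | k)
    · exact (ht e he).1.seg hu hv (fun k => a (Or.inl k)) (fun k => b (Or.inl k)) hq k
    · obtain ⟨β, d1, d2⟩ := Set.mem_iUnion₂.1 k
      exact (k2 β d1).2 (Or.inr ⟨e, (ht e he).2.1.1.trans ((bar_seg hu hv hq).1.symm.trans d2.1)⟩)
  let S : Ed n → Set (Fin n ⊕ K × Bool) := fun e =>
    {u | Conn (Y \ bar (γ e)) (pt (π e (c e))) (pt u)}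
  have lam1 : ∀ e e', (∀ r, Conn (Y \ bar (γ e)) (pt (π e (c e))) r → r ∈ Y → r ∉ bar (γ e')) →
      S e ⊆ S e' ∨ Disjoint (S e) (S e') := by
    intro e e' k
    have a : ∀ u ∈ S e, Conn (Y \ bar (γ e')) (pt (π e (c e))) (pt u) := fun u hu =>
      Conn.mono (fun r hr => And.intro hr.1.1 (k r hr.2 hr.1.1)) (conn_in hu)
    by_cases d : Disjoint (S e) (S e')
    · exact Or.inr d
    obtain ⟨u, u1, u2⟩ := Set.not_disjoint_iff.1 d
    exact Or.inl (fun v hv => (Conn.trans u2 (a u u1).symm).trans (a v hv))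
  have lam2 : ∀ e ∈ E, ∀ e' ∈ E, ∀ r, Conn (Y \ bar (γ e)) (pt (π e (c e))) r → r ∈ bar (γ e') →
      ∀ u ∈ bar (γ e'), u ∈ Y → ¬ Conn ((Y \ bar (γ e)) ∪ {u}) (bs e) u := by
    intro e he e' he' r r1 r2 u u1 u2 k
    have r3 := r1.mem (c1 e he).1
    have key : ∀ v ∈ bar (γ e'), v ∈ Y → v ∉ bar (γ e) := fun v v1 v2 v3 => r3.2
      ((ht e he).1.same (ht e' he').1 v3 v1 (fun k => v2 (Or.inl k)) r2 (fun k => r3.1 (Or.inl k)))
    refine hc e he ((r1.trans (Conn.single (fun q hq => ?_))).trans (k.mono ?_).symm)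
    · have := bY e' he' r r2 u u1 r3.1 u2 hq
      exact ⟨this, key q (bar_seg r2 u1 hq) this⟩
    · exact Set.union_subset subset_rfl (Set.singleton_subset_iff.2 ⟨u2, key u u1 u2⟩)
  have hit : ∀ e ∈ E, ∀ e' ∈ E, (π e true ∈ S e' ↔ π e false ∉ S e') →
      ((p e.1).1 < (w e').1 ∧ (w e').1 < (p e.2).1) ∧
      ln (p e.1) (p e.2) (w e').1 ≤ ln (p e'.1) (p e'.2) (w e').1 := by
    intro e he e' he' k
    have : ¬ segment ℝ (s e true) (s e false) ⊆ Y \ bar (γ e') := by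
      intro a
      have := (((side e true he).2.2.2.1 e' he').trans (Conn.single a)).trans
        ((side e false he).2.2.2.1 e' he').symm
      exact iff_not_self ((show π e false ∈ S e' ↔ π e true ∈ S e' from
        ⟨fun b => Conn.trans b this.symm, fun b => Conn.trans b this⟩).trans k)
    obtain ⟨q, q1, q2⟩ := Set.not_subset.1 this
    have q3 : q ∈ bar (γ e') := by
      by_contra a
      exact q2 ⟨sY e he q1, a⟩
    obtain ⟨-, t2, t3, t4, t5⟩ := ht e' he'
    obtain ⟨a1, a2, a3⟩ := (seg_ln (hB e (hEB e he))).1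
      (seg_sub (side e true he).2.1 (side e false he).2.1 q1)
    rw [q3.1, ← t2.1] at a1 a2 a3
    refine ⟨⟨lt_of_le_of_ne a1 (t4 _).symm, lt_of_le_of_ne a2 (t4 _)⟩, ?_⟩
    rw [← a3, ← ((seg_ln (hB e' (hEB e' he'))).1 t3).2.2]
    exact t5 q q3 (fun k => sY e he q1 (Or.inl k))
  have hsep : ∀ e ∈ E, (π e true ∈ S e ↔ π e false ∉ S e) := by
    intro e he
    simp only [S, Set.mem_ofPred_eq]
    cases c e
    · exact ⟨fun k => absurd k.symm (F1 e he), fun k => absurd (Conn.refl _ _) k⟩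
    · exact ⟨fun _ => F1 e he, fun _ => Conn.refl _ _⟩
  obtain ⟨W, hW⟩ := mem_fam E (fun e => π e true) (fun e => π e false) S (Crs p) (CSp p)
    (fun e he => (side e true he).1) (fun e he => (side e false he).1) hsep (fun e he e' he' => by
      by_cases a : ∃ r, Conn (Y \ bar (γ e)) (pt (π e (c e))) r ∧ r ∈ bar (γ e')
      swap
      · exact (lam1 e e' (fun r r1 _ r2 => a ⟨r, r1, r2⟩)).imp_right Or.inr
      by_cases a' : ∃ r, Conn (Y \ bar (γ e')) (pt (π e' (c e'))) r ∧ r ∈ bar (γ e)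
      swap
      · exact Or.inr ((lam1 e' e (fun r r1 _ r2 => a' ⟨r, r1, r2⟩)).imp_right (fun k => k.symm))
      exfalso
      obtain ⟨r, r1, r2⟩ := a
      obtain ⟨r', r1', r2'⟩ := a'
      have ww : Conn Y (w e) (w e') := ((c1 e he).2.trans (r1.mono Set.sdiff_subset)).trans
        (Conn.single (bY e' he' r r2 _ (ht e' he').2.1 (r1.mem (c1 e he).1).1 (wY e' he')))
      have bb : bs e = bs e' := congrArg Classical.epsilon
        (funext (fun q => propext ⟨fun k => ww.symm.trans k, fun k => ww.trans k⟩))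
      obtain ⟨u, u1, u2, u3⟩ := first_hit ((bar_closed (γ e)).union (bar_closed (γ e')))
        (bs1 e).symm (Or.inl (ht e he).2.1)
      have uY := u2.mem ((bs1 e).mem (wY e he))
      rcases u1 with u1 | u1
      · exact lam2 e' he' e he r' r1' r2' u u1 uY (bb ▸ u3.mono (Set.union_subset_union_left _
          (Set.sdiff_subset_sdiff_right Set.subset_union_right)))
      · exact lam2 e he e' he' r r1 r2 u u1 uY (u3.mono (Set.union_subset_union_left _
          (Set.sdiff_subset_sdiff_right Set.subset_union_left))))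
    (fun e he e' he' hne a b => by
      obtain ⟨a1, a2⟩ := hit e he e' he' a
      obtain ⟨b1, b2⟩ := hit e' he' e he b
      obtain ⟨d1, -⟩ := hit e he e he (hsep e he)
      obtain ⟨d2, -⟩ := hit e' he' e' he' (hsep e' he')
      obtain ⟨x, x1, x2⟩ := ln_root b2 a2
      have o := hB e (hEB e he)
      have o' := hB e' (hEB e' he')
      have y : ((p e.1).1 < x ∧ x < (p e.2).1) ∧ (p e'.1).1 < x ∧ x < (p e'.2).1 := by
        rcases Set.mem_uIcc.1 x1 with k | k <;>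
          exact ⟨⟨by linarith [k.1], by linarith [k.2]⟩, by linarith [k.1], by linarith [k.2]⟩
      exact crs_of_meet hg o o' hne (q := on e x) ((seg_ln o).2 ⟨y.1.1.le, y.1.2.le, rfl⟩)
        ((seg_ln o').2 ⟨y.2.1.le, y.2.2.le, x2⟩) y.1.1 y.1.2 y.2.1 y.2.2)
    (fun e e' k => ⟨fun a => by
      have := k.1
      rw [← a, ori_self_left, zero_mul] at this
      exact lt_irrefl _ this, fun a => by
      have := k.1
      rw [← a, ori_self_right, mul_zero] at this
      exact lt_irrefl _ this⟩)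
    (fun M hM k e he => ⟨hB e (hEB e (hM he)), k e he⟩) J
  refine ⟨W, fam_mono (fun _ k => k) (fun t => ?_) _ _ hW⟩
  simp only [NN, Fintype.card_prod, Fintype.card_coe, Fintype.card_bool]
  omega

end Pool.Agent.Lib.MP_5bf547_cnt
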