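import Mathlib
import Pool.Agent.Lib.MP_5bf547_co.Quant
import Pool.Agent.Lib.MP_5bf547_lin.Count
import Pool.Agent.Lib.MP_5bf547_cnt.Top

/-! The sharp count of graphs with at most `h` obstacles. -/

namespace Pool.Agent.Lib.MP_5bf547_cnt

open Classical Finset Pool.Agent.Lib.MP_5bf547_co Pool.Agent.Lib.MP_5bf547_lin SignType MvPolynomial

variable {n h : ℕ}

lemma sum_div (n t : ℕ) : ∑ j ∈ range t, n / 2 ^ j + 2 * (n / 2 ^ t) ≤ 2 * n := by
  induction t with
  | zero => simp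
  | succ t ih =>
    rw [sum_range_succ, pow_succ, ← Nat.div_div_eq_div_mul]
    omega

lemma sum_two (t : ℕ) : ∑ j ∈ range t, 2 ^ j + 1 = 2 ^ t := by
  induction t with
  | zero => simp
  | succ t ih => rw [sum_range_succ, pow_succ]; omega

lemma quad_le (J : ℕ) : (J + 5) * (J + 1) ≤ 6 * 2 ^ J := by
  induction J with
  | zero => norm_num
  | succ J ih =>
    rcases Nat.eq_zero_or_pos J with e | e
    · subst e; norm_num
    · rw [pow_succ]; nlinarith

lemma fam_bound {p : Fin n → Pt} (hg : Gen p) (hh : h ≤ n) {J : ℕ} (h1 : 2 ^ J ≤ n)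
    (h2 : n < 2 ^ (J + 1)) : (Fam (CSp p) (NN (2 * h) n J) (BB J) (J + 1)).ncard ≤
      2 ^ (n * (1380 * h + 330 * J + 1140)) := by
  refine (fam_card (N := NN (2 * h) n J) (b := BB J) (c := fun s => BB J s + (J + 5)) (csp_uq hg)
    (Nat.mul_pos (by norm_num) (Nat.succ_pos _))
    (by unfold BB; rw [Nat.sub_zero]; omega) (fun s => ?_) _).trans
    (Nat.pow_le_pow_right two_pos ?_)
  · have a : NN (2 * h) n J s + 1 ≤ 2 ^ (J + 5) := by
      have := Nat.div_le_self n (2 ^ (J + 1 - s))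
      rw [show J + 5 = J + 1 + 4 by ring, pow_add]
      unfold NN
      omega
    rw [pow_add]
    nlinarith [Nat.two_pow_pos (BB J s)]
  have e : ∑ s ∈ range (J + 1), 5 * NN (2 * h) n J (s + 1) * (BB J s + (J + 5)) =
      ∑ j ∈ range (J + 1), 15 * (2 * h + n / 2 ^ j + 1) * (20 * 2 ^ j + (J + 5)) := by
    rw [← sum_range_reflect]
    refine sum_congr rfl (fun s hs => ?_)
    have := mem_range.1 hs
    simp only [NN, BB, show J + 1 - (J + 1 - 1 - s + 1) = s by omega,
      show J + 1 - (J + 1 - 1 - s) = s + 1 by omega]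
    ring
  rw [e]
  have b : ∀ j ∈ range (J + 1), 15 * (2 * h + n / 2 ^ j + 1) * (20 * 2 ^ j + (J + 5)) ≤
      300 * (2 * h + 1) * 2 ^ j + 15 * (J + 5) * (n / 2 ^ j) +
        (300 * n + 15 * (2 * h + 1) * (J + 5)) := by
    intro j _
    nlinarith [Nat.div_mul_le_self n (2 ^ j)]
  refine (sum_le_sum b).trans ?_
  rw [sum_add_distrib, sum_add_distrib, ← mul_sum, ← mul_sum, sum_const, card_range, smul_eq_mul]
  have c1 : ∑ j ∈ range (J + 1), 2 ^ j ≤ 2 * n := by
    have := sum_two (J + 1)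
    rw [pow_succ] at this
    omega
  have c2 : ∑ j ∈ range (J + 1), n / 2 ^ j ≤ 2 * n := le_trans (Nat.le_add_right _ _) (sum_div n _)
  have c3 : (J + 5) * (J + 1) ≤ 6 * n := (quad_le J).trans (by omega)
  nlinarith [Nat.mul_le_mul_left (300 * (2 * h + 1)) c1, Nat.mul_le_mul_left (15 * (J + 5)) c2,
    Nat.mul_le_mul_left (15 * (2 * h + 1)) c3]

variable (h n) in
/-- graphs whose non-edges are blocked by `h` faces of a generic drawing -/
def Many : Set (SimpleGraph (Fin n)) :=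
  {G | ∃ x : Vr (n + h) → ℝ, GX x ∧ ∀ B : Set (Fin n × Fin n), (∀ e ∈ B, G.Adj e.1 e.2) →
    Ordered (vp x) B → ∀ a b, a ≠ b → ¬ G.Adj a b → ∃ m, Blk (vp x) B (zp x m) a b}

theorem many_card (hh : h ≤ n) {J : ℕ} (h1 : 2 ^ J ≤ n) (h2 : n < 2 ^ (J + 1)) :
    (Many n h).ncard ≤ (n + h + 2) ^ (26 * (n + h + 2)) *
      (2 ^ (n * (1380 * h + 330 * J + 1140))) ^ 2 := by
  have hx : ∀ G : SimpleGraph (Fin n), ∃ x : Vr (n + h) → ℝ, G ∈ Many n h → GX x ∧
      ∀ B : Set (Fin n × Fin n), (∀ e ∈ B, G.Adj e.1 e.2) → Ordered (vp x) B →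
      ∀ a b, a ≠ b → ¬ G.Adj a b → ∃ m, Blk (vp x) B (zp x m) a b := by
    intro G
    by_cases k : G ∈ Many n h
    · obtain ⟨x, k⟩ := k
      exact ⟨x, fun _ => k⟩
    · exact ⟨0, fun a => absurd a k⟩
  choose x hx using hx
  refine le_trans ?_ (Nat.mul_le_mul_right _
    ((warren (tq (MvPolynomial.X : Vr (n + h) → MvPolynomial (Vr (n + h)) ℝ)) 4 deg_tq).trans
      (types_bound (n + h))))
  refine ncard_le_mul (Set.toFinite _) (fun G t => sign (eval (x G) (tq MvPolynomial.X t)))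
    (fun G hG => ?_) _ ?_
  · exact ⟨x G, (hx G hG).1, rfl⟩
  rintro _ ⟨y, hy, rfl⟩
  let B : SimpleGraph (Fin n) → Set (Ed n) := fun G =>
    {e | G.Adj e.1 e.2 ∧ (vp (x G) e.1).1 < (vp (x G) e.2).1}
  let E : SimpleGraph (Fin n) → Set (Ed n) × Set (Ed n) := fun G =>
    (⋃ m, Top (vp (x G)) (B G) (zp (x G) m),
      ⋃ m, Top (fun i => rf (vp (x G) i)) (B G) (rf (zp (x G) m)))
  set F := Prod.snd '' Fam (CSp (vp y)) (NN (2 * h) n J) (BB J) (J + 1) with hF
  have key : ∀ G ∈ Many n h, (fun t => sign (eval (x G) (tq MvPolynomial.X t))) =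
      (fun t => sign (eval y (tq MvPolynomial.X t))) → E G ∈ F ×ˢ F ∧
      ∀ a b, a ≠ b → (G.Adj a b ↔ ¬ ∃ m, Blk (vp y) ((E G).1 ∪ (E G).2) (zp y m) a b) := by
    intro G hG e
    obtain ⟨a1, a4⟩ := hx G hG
    have hO : Ordered (vp (x G)) (B G) := fun e he => he.2
    have hg := vp_gen a1
    have hE : (E G).1 ∪ (E G).2 = ⋃ m, Bd (vp (x G)) (B G) (zp (x G) m) :=
      (Set.iUnion_union_distrib _ _).symm
    have hEB : (E G).1 ∪ (E G).2 ⊆ B G := hE ▸ Set.iUnion_subset (fun m => bd_sub)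
    have hst0 : ST (cp (x G)) (cp y) := fun t => by
      have := congrFun e (.inl t)
      simp only [eval_tq] at this
      exact this
    have hst : ST (vp (x G)) (vp y) := st_map (Fin.castAdd h) hst0
    have hsv : ∀ m, SV (vp (x G)) (zp (x G) m) (vp y) (zp y m) := fun m =>
      sv_map (Fin.castAdd h) (hst0.pts (Fin.natAdd n m))
    have o : Ordered (vp (x G)) ((E G).1 ∪ (E G).2) := fun e he => hO e (hEB he)
    have fe : ∀ m, Face (vp (x G)) ((E G).1 ∪ (E G).2) (zp (x G) m) =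
        Face (vp (x G)) (B G) (zp (x G) m) := by
      intro m
      refine Set.Subset.antisymm ?_ (face_mono hEB _)
      rw [← face_bd hO (zp_free a1 hO m), hE]
      exact face_mono (Set.subset_iUnion (fun m => Bd (vp (x G)) (B G) (zp (x G) m)) m) _
    have tr : ∀ M, CSp (vp (x G)) M → CSp (vp y) M := fun M k e he =>
      ⟨hst.xlt (k e he).1, fun e' he' c => hst.crs ((k e he).2 e' he' c)⟩
    refine ⟨⟨?_, ?_⟩, fun a b hab => ⟨?_, fun k => ?_⟩⟩
    · obtain ⟨W, k⟩ := top_fam hO hg (zp_free a1 hO) J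
      exact ⟨_, fam_mono tr (fun _ => le_rfl) _ _ k, rfl⟩
    · obtain ⟨W, k⟩ := top_fam (p := fun i => rf (vp (x G) i)) hO hg.rf
        (fun m => rf_free (zp_free a1 hO m)) J
      refine ⟨_, fam_mono (fun M k => tr M (fun e he => ⟨(k e he).1, fun e' he' c => ?_⟩))
        (fun _ => le_rfl) _ _ k, rfl⟩
      simpa only [Crs, ori_rf, neg_mul_neg] using (k e he).2 e' he' c
    · rintro k ⟨m, hm⟩
      obtain ⟨q, q1, q2⟩ := blk_transfer hst.symm (vp_gen hy) (hst.ord o) (zp_free hy (hst.ord o) m)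
        (hsv m).symm hab hm
      rw [fe] at q2
      rcases lt_or_gt_of_ne (fun c => hab (hg.x a b c)) with c | c
      · exact (face_free (zp_free a1 hO m) q2).2 (a, b) ⟨k, c⟩ q1
      · exact (face_free (zp_free a1 hO m) q2).2 (b, a) ⟨k.symm, c⟩ (by rwa [segment_symm])
    · by_contra k'
      obtain ⟨m, q, q1, q2⟩ := a4 (B G) (fun e he => he.1) hO a b hab k'
      rw [← fe] at q2
      exact k ⟨m, blk_transfer hst hg o (zp_free a1 o m) (hsv m) hab ⟨q, q1, q2⟩⟩
  refine (Set.ncard_le_ncard_of_injOn E (fun G hG => (key G hG.1 hG.2).1) ?_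
    (Set.toFinite _)).trans ?_
  · intro G hG G' hG' e
    ext a b
    by_cases hab : a = b
    · simp [hab]
    · rw [(key G hG.1 hG.2).2 a b hab, (key G' hG'.1 hG'.2).2 a b hab, e]
  · have := (Set.ncard_image_le (f := Prod.snd) (Set.toFinite _)).trans
      (fam_bound (vp_gen hy) hh h1 h2)
    rw [Set.ncard_prod, pow_two]
    exact Nat.mul_le_mul this this

lemma rep_card (h n : ℕ) : {G : SimpleGraph (Fin n) | Rep h G}.ncard ≤ (Many n h).ncard * 2 ^ n := by
  have hsub : {G : SimpleGraph (Fin n) | Rep h G} ⊆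
      (fun z : SimpleGraph (Fin n) × Set (Fin n) => cut z.1 z.2) '' (Many n h ×ˢ Set.univ) := by
    rintro G ⟨k, hk, p, O, h1, h2⟩
    obtain ⟨z, hz⟩ : ∃ z, z ∉ ⋃ m, O m := by
      by_contra c
      push Not at c
      exact noncompact_univ _ (Set.eq_univ_of_forall c ▸ isCompact_iUnion (fun m => (h1 m).1))
    let p' : Fin n → EuclideanSpace ℝ (Fin 2) := fun i => if p i ∈ ⋃ m, O m then z else p i
    have hp : ∀ i, p' i ∉ ⋃ m, O m := fun i => by
      by_cases c : p i ∈ ⋃ m, O m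
      · simpa only [p', if_pos c] using hz
      · simpa only [p', if_neg c] using c
    let H : SimpleGraph (Fin n) :=
      { Adj := fun i j => i ≠ j ∧ ∀ m, Disjoint (segment ℝ (p' i) (p' j)) (O m)
        symm := ⟨fun i j h => ⟨h.1.symm, by rw [segment_symm]; exact h.2⟩⟩
        loopless := ⟨fun i h => h.1 rfl⟩ }
    have hc : Continuous crd := crd.continuous_of_finiteDimensional
    refine ⟨(H, {i | p i ∈ ⋃ m, O m}), ⟨rep hk H (fun i => crd (p' i)) (fun j => crd '' O j)
      (fun j => (h1 j).1.image hc) (fun j => (h1 j).2.image _ hc.continuousOn)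
      (fun j i k => hp i (Set.mem_iUnion.2 ⟨j, (crd_inj.mem_set_image).1 k⟩)) (fun i j k => by
        have : segment ℝ (crd (p' i)) (crd (p' j)) = crd '' segment ℝ (p' i) (p' j) :=
          (image_segment ℝ crd.toAffineMap (p' i) (p' j)).symm
        simp only [this, Set.disjoint_image_iff crd_inj]
        exact ⟨fun a => a.2, fun a => ⟨k, a⟩⟩), trivial⟩, ?_⟩
    ext u v
    constructor
    · rintro ⟨⟨a, b⟩, k2, k3⟩
      have k2' : p u ∉ ⋃ m, O m := k2
      have k3' : p v ∉ ⋃ m, O m := k3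
      simp only [p', if_neg k2', if_neg k3'] at b
      exact (h2 u v a).2 b
    · intro a
      have k1 := (h2 u v a.ne).1 a
      have k2 : p u ∉ ⋃ m, O m := fun c => by
        obtain ⟨m, c⟩ := Set.mem_iUnion.1 c
        exact Set.disjoint_left.1 (k1 m) (left_mem_segment _ _ _) c
      have k3 : p v ∉ ⋃ m, O m := fun c => by
        obtain ⟨m, c⟩ := Set.mem_iUnion.1 c
        exact Set.disjoint_left.1 (k1 m) (right_mem_segment _ _ _) c
      refine ⟨⟨a.ne, ?_⟩, k2, k3⟩
      simpa only [p', if_neg k2, if_neg k3] using k1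
  refine (Set.ncard_le_ncard hsub (Set.toFinite _)).trans
    ((Set.ncard_image_le (Set.toFinite _)).trans (le_of_eq ?_))
  rw [Set.ncard_prod, Set.ncard_univ, Nat.card_eq_fintype_card, Fintype.card_set, Fintype.card_fin]

theorem main (h n : ℕ) :
    {G : SimpleGraph (Fin n) | Rep h G}.ncard ≤ 2 ^ (3000 * n * (h + Nat.log 2 n + 1)) := by
  rcases le_or_gt n h with c | c
  · refine (Set.ncard_le_card _).trans ((Nat.card_le_card_of_injective
      (fun G : SimpleGraph (Fin n) => {e : Fin n × Fin n | G.Adj e.1 e.2}) (fun G G' e => ?_)).trans ?_)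
    · ext u v
      exact Set.ext_iff.1 e (u, v)
    · rw [Nat.card_eq_fintype_card, Fintype.card_set, Fintype.card_prod, Fintype.card_fin]
      exact Nat.pow_le_pow_right two_pos (by nlinarith [Nat.zero_le (n * Nat.log 2 n)])
  have h1 := Nat.pow_log_le_self 2 (show n ≠ 0 by omega)
  have h2 := Nat.lt_pow_succ_log_self one_lt_two n
  generalize Nat.log 2 n = J at h1 h2 ⊢
  have a : (n + h + 2) ^ (26 * (n + h + 2)) ≤ 2 ^ ((J + 3) * (104 * n)) := by
    rw [pow_mul 2]
    refine (Nat.pow_le_pow_right (by omega) (by omega)).trans (Nat.pow_le_pow_left ?_ _)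
    rw [show J + 3 = J + 1 + 2 by ring, pow_add]
    simp only [Nat.succ_eq_add_one] at h2
    omega
  refine (rep_card h n).trans ((Nat.mul_le_mul_right _
    ((many_card c.le h1 h2).trans (Nat.mul_le_mul_right _ a))).trans ?_)
  rw [← pow_mul, ← pow_add, ← pow_add]
  exact Nat.pow_le_pow_right two_pos
    (by nlinarith [Nat.zero_le (n * h), Nat.zero_le (n * J)])

end Pool.Agent.Lib.MP_5bf547_cnt
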